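import Pool.Agent.Work.MP_97dc52_al.MT

/-!
Residual nilpotence of the mapping tori of automorphisms acting trivially on the abelianization.
-/

set_option autoImplicit false

namespace Pool.Agent.Work.MP_97dc52_al

open FreeGroup (of)
open scoped commutatorElement

section

variable {N : Type*} [Group N] (φ : MulAut N)

theorem pow_comm (h : ∀ n, φ n * n⁻¹ ∈ _root_.commutator N) (t : ℤ) : ∀ n, (φ ^ t) n * n⁻¹ ∈ _root_.commutator N := by
  have hinv : ∀ n, φ⁻¹ n * n⁻¹ ∈ _root_.commutator N := by
    intro n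
    have h1 := h (φ⁻¹ n)
    rw [MulAut.apply_inv_self] at h1
    have h2 := inv_mem h1
    rwa [mul_inv_rev, inv_inv] at h2
  induction t using Int.induction_on with
  | zero => intro n; simp
  | succ t ih =>
    intro n
    rw [zpow_add, zpow_one, MulAut.mul_apply]
    have h1 := mul_mem (ih (φ n)) (h n)
    have e : (φ ^ (t : ℤ)) (φ n) * (φ n)⁻¹ * (φ n * n⁻¹) = (φ ^ (t : ℤ)) (φ n) * n⁻¹ := by group
    rwa [e] at h1
  | pred t ih =>
    intro n
    rw [zpow_sub, zpow_one, MulAut.mul_apply]
    have h1 := mul_mem (ih (φ⁻¹ n)) (hinv n)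
    have e : (φ ^ (-(t : ℤ))) (φ⁻¹ n) * (φ⁻¹ n)⁻¹ * (φ⁻¹ n * n⁻¹) = (φ ^ (-(t : ℤ))) (φ⁻¹ n) * n⁻¹ := by group
    rwa [e] at h1

/-- The map to the abelianization. -/
def abHom (h : ∀ n, φ n * n⁻¹ ∈ _root_.commutator N) :
    N ⋊[zpowersHom (MulAut N) φ] Multiplicative ℤ →* Abelianization N × Multiplicative ℤ :=
  SemidirectProduct.lift ((MonoidHom.inl _ _).comp Abelianization.of) (MonoidHom.inr _ _) (by
    intro g
    apply MonoidHom.ext
    intro v
    have h1 := pow_comm φ h (Multiplicative.toAdd g) v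
    rw [← Abelianization.ker_of, MonoidHom.mem_ker, map_mul, map_inv, mul_inv_eq_one] at h1
    show ((Abelianization.of ((φ ^ (Multiplicative.toAdd g)) v), 1) : Abelianization N × Multiplicative ℤ) =
      (1, g) * (Abelianization.of v, 1) * (1, g)⁻¹
    rw [h1]
    simp)

theorem gam_mt (h : ∀ n, φ n * n⁻¹ ∈ _root_.commutator N) (c : ℕ) :
    gam (N ⋊[zpowersHom (MulAut N) φ] Multiplicative ℤ) (c + 1) ≤
      (gam N (c + 1)).map (SemidirectProduct.inl) := by
  induction c with
  | zero =>
    show ⁅(⊤ : Subgroup (N ⋊[zpowersHom (MulAut N) φ] Multiplicative ℤ)), ⊤⁆ ≤ _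
    rw [Subgroup.commutator_le]
    intro a _ b _
    have h1 : abHom φ h ⁅a, b⁆ = 1 := by
      rw [map_commutatorElement, commutatorElement_eq_one_iff_mul_comm]
      exact mul_comm _ _
    set g := ⁅a, b⁆ with hg
    have e : g = SemidirectProduct.inl g.left * SemidirectProduct.inr g.right := (SemidirectProduct.inl_left_mul_inr_right g).symm
    have h2 : abHom φ h g = (Abelianization.of g.left, g.right) := by
      conv_lhs => rw [e]
      rw [map_mul, abHom, SemidirectProduct.lift_inl, SemidirectProduct.lift_inr]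
      simp
    rw [h1] at h2
    have h3 : Abelianization.of g.left = 1 := (congrArg Prod.fst h2).symm
    have h4 : g.right = 1 := (congrArg Prod.snd h2).symm
    rw [← MonoidHom.mem_ker, Abelianization.ker_of] at h3
    refine ⟨g.left, h3, ?_⟩
    conv_rhs => rw [e]
    rw [h4, map_one, mul_one]
  | succ c ih =>
    show ⁅gam (N ⋊[zpowersHom (MulAut N) φ] Multiplicative ℤ) (c + 1), ⊤⁆ ≤ _
    rw [Subgroup.commutator_le]
    intro a ha b _
    obtain ⟨n, hn, rfl⟩ := ih ha
    have e : b = SemidirectProduct.inl b.left * SemidirectProduct.inr b.right := (SemidirectProduct.inl_left_mul_inr_right b).symm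
    set v := b.left
    set t := b.right
    have h1 : ∀ x : N, SemidirectProduct.inr t * SemidirectProduct.inl x * (SemidirectProduct.inr t)⁻¹ =
        (SemidirectProduct.inl ((φ ^ (Multiplicative.toAdd t)) x) : N ⋊[zpowersHom (MulAut N) φ] Multiplicative ℤ) := by
      intro x
      have := SemidirectProduct.inl_aut (φ := zpowersHom (MulAut N) φ) t x
      rw [show (zpowersHom (MulAut N) φ) t = φ ^ (Multiplicative.toAdd t) from rfl] at this
      rw [this, map_inv]
    refine ⟨⁅n, v⁆ * (v * (((φ ^ (Multiplicative.toAdd t)) n) * n⁻¹)⁻¹ * v⁻¹), ?_, ?_⟩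
    · apply mul_mem (comm_mem_gam hn v)
      have hh := endo_gam (φ ^ (Multiplicative.toAdd t)).toMonoidHom (pow_comm φ h _) (c + 1) n hn
      have hN : (gam N (c + 1 + 1)).Normal := inferInstance
      exact hN.conj_mem _ (inv_mem hh) v
    · rw [e]
      have h2 := h1 n⁻¹
      rw [map_inv] at h2
      have e1 : (SemidirectProduct.inl n * (SemidirectProduct.inl v * SemidirectProduct.inr t) * (SemidirectProduct.inl n)⁻¹ *
          (SemidirectProduct.inl v * SemidirectProduct.inr t)⁻¹ : N ⋊[zpowersHom (MulAut N) φ] Multiplicative ℤ) =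
          SemidirectProduct.inl n * SemidirectProduct.inl v *
            (SemidirectProduct.inr t * (SemidirectProduct.inl n)⁻¹ * (SemidirectProduct.inr t)⁻¹) * (SemidirectProduct.inl v)⁻¹ := by
        group
      refine Eq.trans ?_ e1.symm
      rw [h2, ← map_inv, ← map_mul, ← map_mul, ← map_mul]
      congr 1
      rw [commutatorElement_def, map_inv]
      group

theorem res_mt (h : ∀ n, φ n * n⁻¹ ∈ _root_.commutator N) (hN : ∀ n : N, (∀ c, n ∈ gam N c) → n = 1)
    (g : N ⋊[zpowersHom (MulAut N) φ] Multiplicative ℤ)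
    (hg : ∀ c, g ∈ gam (N ⋊[zpowersHom (MulAut N) φ] Multiplicative ℤ) c) : g = 1 := by
  obtain ⟨n, hn, rfl⟩ := gam_mt φ h 0 (hg 1)
  have key : ∀ c, n ∈ gam N c := by
    intro c
    cases c with
    | zero => exact Subgroup.mem_top n
    | succ c =>
      obtain ⟨m, hm, hmn⟩ := gam_mt φ h c (hg (c + 1))
      rw [← SemidirectProduct.inl_injective hmn]
      exact hm
  rw [hN n key, map_one]

end

theorem phi_comm (w : F2) (v : F3) : phi w v * v⁻¹ ∈ _root_.commutator F3 := by
  have e : (Abelianization.of).comp (phiHom (emb w)) = (Abelianization.of : F3 →* Abelianization F3) := by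
    apply FreeGroup.ext_hom
    intro i
    fin_cases i
    · show Abelianization.of (phiHom (emb w) (of 0)) = Abelianization.of (of 0)
      rw [phiHom_0]
    · show Abelianization.of (phiHom (emb w) (of 1)) = Abelianization.of (of 1)
      rw [phiHom_1]
    · show Abelianization.of (phiHom (emb w) (of 2)) = Abelianization.of (of 2)
      rw [phiHom_2, map_mul, map_mul, map_inv]
      exact mul_inv_cancel_comm _ _
  rw [← Abelianization.ker_of, MonoidHom.mem_ker, map_mul, map_inv, mul_inv_eq_one]
  exact DFunLike.congr_fun e v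

end Pool.Agent.Work.MP_97dc52_al
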