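import Pool.Agent.Work.MP_97dc52_al.PP

/-!
Residual nilpotence of the free group of rank three.
-/

set_option autoImplicit false

namespace Pool.Agent.Work.MP_97dc52_al

open FreeGroup (of)
open scoped commutatorElement MatrixGroups

/-- The matrices congruent to the identity modulo `m`. -/
def Cong (m : ℤ) (g : SLZ) : Prop := ∃ A : Matrix (Fin 2) (Fin 2) ℤ, g.1 = 1 + m • A

/-- The congruence subgroup. -/
def KK (m : ℤ) : Subgroup SLZ where
  carrier := {g | Cong m g}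
  one_mem' := ⟨0, by simp⟩
  mul_mem' := by
    rintro a b ⟨A, hA⟩ ⟨B, hB⟩
    refine ⟨A + B + m • (A * B), ?_⟩
    show a.1 * b.1 = _
    rw [hA, hB, add_mul, one_mul, mul_add, mul_one, smul_add, smul_add, smul_mul_assoc, mul_smul_comm]
    abel
  inv_mem' := by
    rintro a ⟨A, hA⟩
    refine ⟨-(a⁻¹.1 * A), ?_⟩
    have h : a⁻¹.1 * a.1 = 1 := by
      show (a⁻¹ * a).1 = 1
      rw [inv_mul_cancel]
      rfl
    have h2 : a⁻¹.1 * a.1 = a⁻¹.1 + m • (a⁻¹.1 * A) := by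
      rw [hA, mul_add, mul_one, mul_smul_comm]
    rw [h] at h2
    show a⁻¹.1 = 1 + m • -(a⁻¹.1 * A)
    rw [smul_neg, h2]
    abel

theorem comm_KK {m : ℤ} {a b : SLZ} (ha : a ∈ KK m) (hb : b ∈ KK 2) : ⁅a, b⁆ ∈ KK (2 * m) := by
  obtain ⟨A, hA⟩ := ha
  obtain ⟨B, hB⟩ := hb
  refine ⟨(A * B - B * A) * (b * a)⁻¹.1, ?_⟩
  have h0 : a.1 * b.1 = b.1 * a.1 + (2 * m) • (A * B - B * A) := by
    rw [hA, hB]
    simp only [add_mul, mul_add, one_mul, mul_one, smul_mul_assoc, mul_smul_comm, smul_add, smul_sub, smul_smul]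
    rw [mul_comm m 2]
    abel
  have h1 : ⁅a, b⁆ = (a * b) * (b * a)⁻¹ := by rw [commutatorElement_def]; group
  rw [h1]
  show (a * b).1 * (b * a)⁻¹.1 = _
  have h2 : (a * b).1 = (b * a).1 + (2 * m) • (A * B - B * A) := h0
  rw [h2, add_mul, smul_mul_assoc]
  have h3 : (b * a).1 * (b * a)⁻¹.1 = 1 := by
    show ((b * a) * (b * a)⁻¹).1 = 1
    rw [mul_inv_cancel]
    rfl
  rw [h3]

theorem mm_KK (i : Fin 3) : mm i 1 ∈ KK 2 := by
  fin_cases i
  · refine ⟨!![0, 4; 0, 0], ?_⟩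
    show (m0 1).1 = _
    ext i j
    fin_cases i <;> fin_cases j <;> simp [m0]
  · refine ⟨!![0, 0; 4, 0], ?_⟩
    show (m1 1).1 = _
    ext i j
    fin_cases i <;> fin_cases j <;> simp [m1]
  · refine ⟨!![4, -4; 4, -4], ?_⟩
    show (m2 1).1 = _
    ext i j
    fin_cases i <;> fin_cases j <;> simp [m2]

theorem rho_KK (v : F3) : rho v ∈ KK 2 := by
  have h : (⊤ : Subgroup F3) ≤ (KK 2).comap rho := by
    rw [← FreeGroup.closure_range_of, Subgroup.closure_le]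
    rintro _ ⟨i, rfl⟩
    show rho (of i) ∈ KK 2
    rw [rho, FreeGroup.lift_apply_of]
    exact mm_KK i
  exact h (Subgroup.mem_top v)

theorem gam_KK (c : ℕ) : gam F3 c ≤ (KK (2 ^ (c + 1))).comap rho := by
  induction c with
  | zero =>
    intro v _
    show rho v ∈ KK (2 ^ (0 + 1))
    rw [zero_add, pow_one]
    exact rho_KK v
  | succ c ih =>
    show ⁅gam F3 c, ⊤⁆ ≤ _
    rw [Subgroup.commutator_le]
    intro a ha b _
    show rho ⁅a, b⁆ ∈ KK (2 ^ (c + 1 + 1))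
    rw [map_commutatorElement, pow_succ, mul_comm]
    exact comm_KK (ih ha) (rho_KK b)

theorem eq_one_of_KK (g : SLZ) (h : ∀ c : ℕ, g ∈ KK (2 ^ c)) : g = 1 := by
  apply Subtype.ext
  show g.1 = 1
  ext i j
  obtain ⟨A, hA⟩ := h (Int.natAbs (g.1 i j - (1 : Matrix (Fin 2) (Fin 2) ℤ) i j))
  set x := g.1 i j - (1 : Matrix (Fin 2) (Fin 2) ℤ) i j with hx
  have h1 : g.1 i j = (1 : Matrix (Fin 2) (Fin 2) ℤ) i j + 2 ^ x.natAbs * A i j := by
    have := congrFun (congrFun hA i) j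
    rw [this, Matrix.add_apply, Matrix.smul_apply, smul_eq_mul]
  have h2 : (2 : ℤ) ^ x.natAbs ∣ x := ⟨A i j, by rw [hx] at h1 ⊢; linarith⟩
  have h3 : x = 0 := by
    apply Int.eq_zero_of_abs_lt_dvd h2
    rw [Int.abs_eq_natAbs]
    exact_mod_cast Nat.lt_two_pow_self
  rw [hx] at h3
  linarith

theorem res_F3 (v : F3) (h : ∀ c, v ∈ gam F3 c) : v = 1 := by
  apply rho_injective
  rw [map_one]
  apply eq_one_of_KK
  intro c
  cases c with
  | zero => exact ⟨(rho v).1 - 1, by simp⟩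
  | succ c => exact gam_KK c (h c)

end Pool.Agent.Work.MP_97dc52_al
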