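import Pool.Agent.Work.MP_97dc52_al.Nil

/-!
The mapping tori `F_3 ⋊ ℤ` of the automorphisms `x ↦ x, y ↦ y, z ↦ w z w⁻¹` with `w` a word in `x, y`.
-/

set_option autoImplicit false

namespace Pool.Agent.Work.MP_97dc52_al

open FreeGroup (of)

/-- The free group of rank 2. -/
abbrev F2 := FreeGroup (Fin 2)

/-- The free group of rank 3. -/
abbrev F3 := FreeGroup (Fin 3)

/-- The mapping torus `F_3 ⋊_φ ℤ`. -/
abbrev MT (φ : MulAut F3) : Type := F3 ⋊[zpowersHom (MulAut F3) φ] Multiplicative ℤ

/-- The inclusion of `F2`. -/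
def emb : F2 →* F3 := FreeGroup.lift ![of 0, of 1]

theorem emb_0 : emb (of 0) = of 0 := by simp [emb]
theorem emb_1 : emb (of 1) = of 1 := by simp [emb]

/-- The endomorphism `x ↦ x, y ↦ y, z ↦ u z u⁻¹`. -/
def phiHom (u : F3) : F3 →* F3 := FreeGroup.lift ![of 0, of 1, u * of 2 * u⁻¹]

theorem phiHom_0 (u : F3) : phiHom u (of 0) = of 0 := by simp [phiHom]
theorem phiHom_1 (u : F3) : phiHom u (of 1) = of 1 := by simp [phiHom]
theorem phiHom_2 (u : F3) : phiHom u (of 2) = u * of 2 * u⁻¹ := by simp [phiHom]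

theorem phiHom_emb (u : F3) (v : F2) : phiHom u (emb v) = emb v := by
  have h : (phiHom u).comp emb = emb := by
    apply FreeGroup.ext_hom
    intro i
    fin_cases i
    · show phiHom u (emb (of 0)) = emb (of 0)
      rw [emb_0, phiHom_0]
    · show phiHom u (emb (of 1)) = emb (of 1)
      rw [emb_1, phiHom_1]
  exact DFunLike.congr_fun h v

theorem phiHom_comp (v v' : F2) (h : v' * v = 1) : (phiHom (emb v)).comp (phiHom (emb v')) = MonoidHom.id F3 := by
  have e : emb v' * emb v = 1 := by rw [← map_mul, h, map_one]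
  have e' : (emb v)⁻¹ = emb v' := inv_eq_of_mul_eq_one_left e
  apply FreeGroup.ext_hom
  intro i
  fin_cases i
  · show phiHom (emb v) (phiHom (emb v') (of 0)) = of 0
    rw [phiHom_0, phiHom_0]
  · show phiHom (emb v) (phiHom (emb v') (of 1)) = of 1
    rw [phiHom_1, phiHom_1]
  · show phiHom (emb v) (phiHom (emb v') (of 2)) = of 2
    rw [phiHom_2, map_mul, map_mul, map_inv, phiHom_emb, phiHom_2, e', ← e']
    group

/-- The automorphism `x ↦ x, y ↦ y, z ↦ w z w⁻¹`. -/
def phi (w : F2) : MulAut F3 :=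
  MonoidHom.toMulEquiv (phiHom (emb w)) (phiHom (emb w⁻¹)) (phiHom_comp _ _ (by simp)) (phiHom_comp _ _ (by simp))

theorem phi_apply (w : F2) (v : F3) : phi w v = phiHom (emb w) v := rfl

/-- The value of a word of `F2`. -/
abbrev val {H : Type*} [Group H] (w : F2) (x y : H) : H := FreeGroup.lift ![x, y] w

/-- The relations of the mapping torus. -/
def Rel {H : Type*} [Group H] (w : F2) (x y z t : H) : Prop :=
  t * x = x * t ∧ t * y = y * t ∧ t * z * t⁻¹ = val w x y * z * (val w x y)⁻¹

section

variable {H : Type*} [Group H] {w : F2} {x y z t : H}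

theorem lift3_emb (x y z : H) (v : F2) : FreeGroup.lift ![x, y, z] (emb v) = val v x y := by
  have h : (FreeGroup.lift ![x, y, z]).comp emb = FreeGroup.lift ![x, y] := by
    apply FreeGroup.ext_hom
    intro i
    fin_cases i
    · show FreeGroup.lift ![x, y, z] (emb (of 0)) = FreeGroup.lift ![x, y] (of 0)
      rw [emb_0]
      simp
    · show FreeGroup.lift ![x, y, z] (emb (of 1)) = FreeGroup.lift ![x, y] (of 1)
      rw [emb_1]
      simp
  exact DFunLike.congr_fun h v

theorem Rel.step (h : Rel w x y z t) (v : F3) :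
    FreeGroup.lift ![x, y, z] (phi w v) = t * FreeGroup.lift ![x, y, z] v * t⁻¹ := by
  have e : (FreeGroup.lift ![x, y, z]).comp (phiHom (emb w)) =
      (MulAut.conj t).toMonoidHom.comp (FreeGroup.lift ![x, y, z]) := by
    apply FreeGroup.ext_hom
    intro i
    fin_cases i
    · show FreeGroup.lift ![x, y, z] (phiHom (emb w) (of 0)) = t * FreeGroup.lift ![x, y, z] (of 0) * t⁻¹
      rw [phiHom_0]
      simp [h.1]
    · show FreeGroup.lift ![x, y, z] (phiHom (emb w) (of 1)) = t * FreeGroup.lift ![x, y, z] (of 1) * t⁻¹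
      rw [phiHom_1]
      simp [h.2.1]
    · show FreeGroup.lift ![x, y, z] (phiHom (emb w) (of 2)) = t * FreeGroup.lift ![x, y, z] (of 2) * t⁻¹
      rw [phiHom_2, map_mul, map_mul, map_inv, lift3_emb]
      simp only [FreeGroup.lift_apply_of]
      exact h.2.2.symm
  exact DFunLike.congr_fun e v

theorem Rel.zstep (h : Rel w x y z t) (n : ℤ) : ∀ v : F3,
    FreeGroup.lift ![x, y, z] ((phi w ^ n) v) = t ^ n * FreeGroup.lift ![x, y, z] v * (t ^ n)⁻¹ := by
  induction n using Int.induction_on with
  | zero => intro v; simp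
  | succ n ih =>
    intro v
    rw [zpow_add, zpow_one, MulAut.mul_apply, ih, h.step, zpow_add, zpow_one]
    group
  | pred n ih =>
    intro v
    have h1 : FreeGroup.lift ![x, y, z] ((phi w)⁻¹ v) = t⁻¹ * FreeGroup.lift ![x, y, z] v * t := by
      have := h.step ((phi w)⁻¹ v)
      rw [MulAut.apply_inv_self] at this
      rw [this]
      group
    rw [zpow_sub, zpow_one, MulAut.mul_apply, ih, h1, zpow_sub, zpow_one]
    group

/-- The homomorphism given by a solution of the relations. -/
def Rel.hom (h : Rel w x y z t) : MT (phi w) →* H :=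
  SemidirectProduct.lift (FreeGroup.lift ![x, y, z]) (zpowersHom H t) (by
    intro g
    apply MonoidHom.ext
    intro v
    exact h.zstep (Multiplicative.toAdd g) v)

end

/-- The generators. -/
def gX (w : F2) : MT (phi w) := SemidirectProduct.inl (of 0)
def gY (w : F2) : MT (phi w) := SemidirectProduct.inl (of 1)
def gZ (w : F2) : MT (phi w) := SemidirectProduct.inl (of 2)
def gT (w : F2) : MT (phi w) := SemidirectProduct.inr (Multiplicative.ofAdd 1)

section

variable {H : Type*} [Group H] {w : F2} {x y z t : H}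

theorem Rel.hom_X (h : Rel w x y z t) : h.hom (gX w) = x := by simp [Rel.hom, gX]
theorem Rel.hom_Y (h : Rel w x y z t) : h.hom (gY w) = y := by simp [Rel.hom, gY]
theorem Rel.hom_Z (h : Rel w x y z t) : h.hom (gZ w) = z := by simp [Rel.hom, gZ]
theorem Rel.hom_T (h : Rel w x y z t) : h.hom (gT w) = t := by simp [Rel.hom, gT]

theorem mt_hom_ext {f g : MT (phi w) →* H} (hx : f (gX w) = g (gX w)) (hy : f (gY w) = g (gY w))
    (hz : f (gZ w) = g (gZ w)) (ht : f (gT w) = g (gT w)) : f = g := by
  apply SemidirectProduct.hom_ext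
  · ext i
    fin_cases i
    · exact hx
    · exact hy
    · exact hz
  · ext
    exact ht

theorem gT_conj (w : F2) (v : F3) :
    gT w * SemidirectProduct.inl v * (gT w)⁻¹ = (SemidirectProduct.inl (phi w v) : MT (phi w)) := by
  have := SemidirectProduct.inl_aut (φ := zpowersHom (MulAut F3) (phi w)) (Multiplicative.ofAdd 1) v
  rw [show (zpowersHom (MulAut F3) (phi w)) (Multiplicative.ofAdd 1) = phi w by simp] at this
  rw [this]
  simp [gT]

theorem val_inl (w v : F2) : val v (gX w) (gY w) = SemidirectProduct.inl (emb v) := by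
  have h : FreeGroup.lift ![gX w, gY w] = (SemidirectProduct.inl (φ := zpowersHom (MulAut F3) (phi w))).comp emb := by
    apply FreeGroup.ext_hom
    intro i
    fin_cases i
    · show FreeGroup.lift ![gX w, gY w] (of 0) = SemidirectProduct.inl (emb (of 0))
      rw [emb_0]
      simp [gX]
    · show FreeGroup.lift ![gX w, gY w] (of 1) = SemidirectProduct.inl (emb (of 1))
      rw [emb_1]
      simp [gY]
  exact DFunLike.congr_fun h v

theorem rel_gen (w : F2) : Rel w (gX w) (gY w) (gZ w) (gT w) := by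
  refine ⟨?_, ?_, ?_⟩
  · have := gT_conj w (of 0)
    rw [phi_apply, phiHom_0] at this
    exact mul_inv_eq_iff_eq_mul.mp this
  · have := gT_conj w (of 1)
    rw [phi_apply, phiHom_1] at this
    exact mul_inv_eq_iff_eq_mul.mp this
  · have := gT_conj w (of 2)
    rw [phi_apply, phiHom_2, map_mul, map_mul, map_inv, ← val_inl] at this
    exact this

theorem Rel.map {K : Type*} [Group K] (f : H →* K) (h : Rel w x y z t) : Rel w (f x) (f y) (f z) (f t) := by
  have hv : f (val w x y) = val w (f x) (f y) := by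
    have e : f.comp (FreeGroup.lift ![x, y]) = FreeGroup.lift ![f x, f y] := by
      ext i
      fin_cases i <;> simp
    exact DFunLike.congr_fun e w
  refine ⟨?_, ?_, ?_⟩
  · rw [← map_mul, h.1, map_mul]
  · rw [← map_mul, h.2.1, map_mul]
  · rw [← hv, ← map_inv, ← map_mul, ← map_mul, h.2.2]
    simp

/-- Homomorphisms are solutions of the relations. -/
def homEquiv (w : F2) (H : Type*) [Group H] :
    (MT (phi w) →* H) ≃ {p : H × H × H × H // Rel w p.1 p.2.1 p.2.2.1 p.2.2.2} where
  toFun f := ⟨(f (gX w), f (gY w), f (gZ w), f (gT w)), (rel_gen w).map f⟩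
  invFun p := Rel.hom p.2
  left_inv f := mt_hom_ext (Rel.hom_X _) (Rel.hom_Y _) (Rel.hom_Z _) (Rel.hom_T _)
  right_inv p := by
    apply Subtype.ext
    exact Prod.ext (Rel.hom_X _) (Prod.ext (Rel.hom_Y _) (Prod.ext (Rel.hom_Z _) (Rel.hom_T _)))

end

end Pool.Agent.Work.MP_97dc52_al
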