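import Mathlib

/-!
Endomorphisms of a group which are the identity modulo the commutator subgroup act as the identity on the quotients
of the lower central series; for a nilpotent group they are automorphisms.
-/

set_option autoImplicit false

namespace Pool.Agent.Work.MP_97dc52_al

open Subgroup
open scoped commutatorElement

/-- The terms of the lower central series: `gam G 0 = G`, `gam G (n+1) = [gam G n, G]`. -/
abbrev gam (G : Type*) [Group G] (n : ℕ) : Subgroup G := (⊤ : Subgroup G).lowerCentralSeries n

section

variable {N : Type*} [Group N]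

theorem comm_mem_gam {i : ℕ} {a : N} (ha : a ∈ gam N i) (b : N) : ⁅a, b⁆ ∈ gam N (i + 1) :=
  commutator_mem_commutator ha (mem_top b)

/-- A form of the three subgroups lemma. -/
theorem comm_gam (i : ℕ) : ⁅gam N i, _root_.commutator N⁆ ≤ gam N (i + 2) := by
  set M := gam N (i + 2) with hM
  have hMn : M.Normal := inferInstance
  let p : N →* N ⧸ M := QuotientGroup.mk' M
  have hmap : ∀ H : Subgroup N, H ≤ M ↔ H.map p = ⊥ := by
    intro H
    rw [Subgroup.map_eq_bot_iff, QuotientGroup.ker_mk']
  rw [hmap, commutator_def, map_commutator, map_commutator, commutator_comm]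
  have h1 : ⁅⁅(⊤ : Subgroup N).map p, (gam N i).map p⁆, (⊤ : Subgroup N).map p⁆ = ⊥ := by
    rw [← map_commutator, ← map_commutator, ← hmap, commutator_comm (⊤ : Subgroup N)]
    exact le_refl _
  have h2 : ⁅⁅(gam N i).map p, (⊤ : Subgroup N).map p⁆, (⊤ : Subgroup N).map p⁆ = ⊥ := by
    rw [← map_commutator, ← map_commutator, ← hmap]
    exact le_refl _
  exact commutator_commutator_eq_bot_of_rotate h1 h2

/-- An endomorphism which is the identity modulo `[N,N]` is the identity on the quotients of the lower central series. -/
theorem endo_gam (f : N →* N) (hf : ∀ n, f n * n⁻¹ ∈ _root_.commutator N) (i : ℕ) :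
    ∀ n ∈ gam N i, f n * n⁻¹ ∈ gam N (i + 1) := by
  induction i with
  | zero => intro n _; exact hf n
  | succ i ih =>
    set M := gam N (i + 1 + 1) with hM
    have hMn : M.Normal := inferInstance
    let p : N →* N ⧸ M := QuotientGroup.mk' M
    have hp : ∀ n, n ∈ M → p n = 1 := fun n hn => (QuotientGroup.eq_one_iff n).mpr hn
    have hcen : ∀ a ∈ gam N (i + 1), ∀ b, p a * p b = p b * p a := by
      intro a ha b
      have := hp _ (comm_mem_gam ha b)
      rw [map_commutatorElement, commutatorElement_eq_one_iff_mul_comm] at this
      exact this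
    have hle : gam N (i + 1) ≤ (p.comp f).eqLocus p := by
      show ⁅gam N i, (⊤ : Subgroup N)⁆ ≤ _
      rw [commutator_le]
      intro a ha b _
      show p (f ⁅a, b⁆) = p ⁅a, b⁆
      rw [map_commutatorElement, map_commutatorElement, map_commutatorElement]
      have ea : p (f a) = p (f a * a⁻¹) * p a := by rw [← map_mul]; congr 1; group
      have eb : p (f b) = p (f b * b⁻¹) * p b := by rw [← map_mul]; congr 1; group
      have ca : ∀ x, p (f a * a⁻¹) * p x = p x * p (f a * a⁻¹) := hcen _ (ih a ha)
      have cb : p a * p (f b * b⁻¹) = p (f b * b⁻¹) * p a := by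
        have := hp _ (comm_gam i (commutator_mem_commutator ha (hf b)))
        rw [map_commutatorElement, commutatorElement_eq_one_iff_mul_comm] at this
        exact this
      have cc : ∀ x, p ⁅a, b⁆ * p x = p x * p ⁅a, b⁆ := hcen _ (comm_mem_gam ha b)
      set A := p (f a * a⁻¹) with hA
      set B := p (f b * b⁻¹) with hB
      have cA : ∀ y : N ⧸ M, A * y = y * A := by
        intro y
        obtain ⟨x, rfl⟩ := QuotientGroup.mk'_surjective M y
        exact ca x
      have cC : ∀ y : N ⧸ M, ⁅p a, p b⁆ * y = y * ⁅p a, p b⁆ := by
        intro y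
        obtain ⟨x, rfl⟩ := QuotientGroup.mk'_surjective M y
        have := cc x
        rwa [map_commutatorElement] at this
      rw [ea, eb, commutatorElement_def]
      have e1 : A * p a * (B * p b) * (A * p a)⁻¹ * (B * p b)⁻¹ = p a * (B * p b) * (p a)⁻¹ * (B * p b)⁻¹ := by
        have : A * p a * (B * p b) = p a * (B * p b) * A := by
          rw [mul_assoc, cA]
        rw [this, cA (p a)]
        group
      rw [e1]
      have e2 : p a * (B * p b) * (p a)⁻¹ * (B * p b)⁻¹ = B * (p a * p b * (p a)⁻¹ * (p b)⁻¹) * B⁻¹ := by
        rw [← mul_assoc (p a) B, cb]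
        group
      rw [e2]
      have e3 : p a * p b * (p a)⁻¹ * (p b)⁻¹ = ⁅p a, p b⁆ := rfl
      rw [e3, ← cC B]
      group
    intro n hn
    have h := hle hn
    have h' : p (f n) = p n := h
    show f n * n⁻¹ ∈ M
    rw [← QuotientGroup.eq_one_iff]
    show p (f n * n⁻¹) = 1
    rw [map_mul, h', map_inv, mul_inv_cancel]

/-- In a nilpotent group such an endomorphism is bijective. -/
theorem endo_bijective (f : N →* N) (hf : ∀ n, f n * n⁻¹ ∈ _root_.commutator N) {c : ℕ} (hc : gam N c = ⊥) :
    Function.Bijective f := by
  constructor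
  · rw [injective_iff_map_eq_one]
    intro n hn
    have key : ∀ i, n ∈ gam N i := by
      intro i
      induction i with
      | zero => exact mem_top n
      | succ i ih =>
        have := endo_gam f hf i n ih
        rw [hn, one_mul] at this
        exact (inv_mem_iff (H := gam N (i + 1))).mp this
    have := key c
    rw [hc] at this
    exact this
  · rw [← MonoidHom.range_eq_top, eq_top_iff]
    have key : ∀ j i, i + j = c → gam N i ≤ f.range := by
      intro j
      induction j with
      | zero =>
        intro i hi
        have : i = c := by omega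
        subst this
        rw [hc]
        exact bot_le
      | succ j ih =>
        intro i hi n hn
        have h1 := ih (i + 1) (by omega) (endo_gam f hf i n hn)
        have h2 : f n ∈ f.range := ⟨n, rfl⟩
        have h3 : n = (f n * n⁻¹)⁻¹ * f n := by group
        rw [h3]
        exact mul_mem (inv_mem h1) h2
    exact key c 0 (by omega)

/-- The term `gam` of a quotient. -/
theorem gam_quot (c : ℕ) : gam (N ⧸ gam N c) c = ⊥ := by
  have h := map_lowerCentralSeries (⊤ : Subgroup N) (QuotientGroup.mk' (gam N c)) c
  rw [Subgroup.map_top_of_surjective _ (QuotientGroup.mk'_surjective _)] at h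
  show (⊤ : Subgroup (N ⧸ gam N c)).lowerCentralSeries c = ⊥
  rw [← h, Subgroup.map_eq_bot_iff, QuotientGroup.ker_mk']

/-- homomorphisms preserve the series -/
theorem map_gam_le {K : Type*} [Group K] (f : N →* K) (n : ℕ) : (gam N n).map f ≤ gam K n := by
  rw [map_lowerCentralSeries]
  exact lowerCentralSeries_mono n le_top

end

end Pool.Agent.Work.MP_97dc52_al
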