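import Pool.Agent.Work.MP_97dc52_al.MT

/-!
A free subgroup of rank three of `SL(2, ℤ)`, contained in the congruence subgroup of level 8, and residual nilpotence
of the free group of rank three.
-/

set_option autoImplicit false

namespace Pool.Agent.Work.MP_97dc52_al

open FreeGroup (of)
open scoped commutatorElement MatrixGroups

/-- integer matrices of determinant one -/
abbrev SLZ := Matrix.SpecialLinearGroup (Fin 2) ℤ

def m0 (n : ℤ) : SLZ := ⟨!![1, 8 * n; 0, 1], by simp [Matrix.det_fin_two]⟩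
def m1 (n : ℤ) : SLZ := ⟨!![1, 0; 8 * n, 1], by simp [Matrix.det_fin_two]⟩
def m2 (n : ℤ) : SLZ := ⟨!![1 + 8 * n, -(8 * n); 8 * n, 1 - 8 * n], by simp [Matrix.det_fin_two]; ring⟩

theorem m0_add (a b : ℤ) : m0 a * m0 b = m0 (a + b) := by
  apply Subtype.ext
  show (m0 a).1 * (m0 b).1 = (m0 (a + b)).1
  ext i j
  fin_cases i <;> fin_cases j <;> simp [m0, Matrix.mul_apply, Fin.sum_univ_two]
  ring

theorem m1_add (a b : ℤ) : m1 a * m1 b = m1 (a + b) := by
  apply Subtype.ext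
  show (m1 a).1 * (m1 b).1 = (m1 (a + b)).1
  ext i j
  fin_cases i <;> fin_cases j <;> simp [m1, Matrix.mul_apply, Fin.sum_univ_two]
  ring

theorem m2_add (a b : ℤ) : m2 a * m2 b = m2 (a + b) := by
  apply Subtype.ext
  show (m2 a).1 * (m2 b).1 = (m2 (a + b)).1
  ext i j
  fin_cases i <;> fin_cases j <;> simp [m2, Matrix.mul_apply, Fin.sum_univ_two] <;> ring

theorem m0_zero : m0 0 = 1 := by
  apply Subtype.ext
  ext i j
  fin_cases i <;> fin_cases j <;> simp [m0]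

theorem m1_zero : m1 0 = 1 := by
  apply Subtype.ext
  ext i j
  fin_cases i <;> fin_cases j <;> simp [m1]

theorem m2_zero : m2 0 = 1 := by
  apply Subtype.ext
  ext i j
  fin_cases i <;> fin_cases j <;> simp [m2]

theorem zpow_of_add {G : Type*} [Group G] (m : ℤ → G) (h0 : m 0 = 1) (hadd : ∀ a b, m a * m b = m (a + b)) (n : ℤ) :
    m 1 ^ n = m n := by
  induction n using Int.induction_on with
  | zero => simp [h0]
  | succ n ih => rw [zpow_add, ih, zpow_one, hadd]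
  | pred n ih =>
    have : (m 1)⁻¹ = m (-1) := by
      rw [inv_eq_iff_mul_eq_one, hadd]
      simpa using h0
    rw [zpow_sub, ih, zpow_one, this, hadd]
    rfl

/-- The three matrices. -/
def mm : Fin 3 → ℤ → SLZ := ![m0, m1, m2]

theorem mm_pow (i : Fin 3) (n : ℤ) : mm i 1 ^ n = mm i n := by
  fin_cases i
  · exact zpow_of_add m0 m0_zero m0_add n
  · exact zpow_of_add m1 m1_zero m1_add n
  · exact zpow_of_add m2 m2_zero m2_add n

/-- The representation. -/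
def rho : F3 →* SLZ := FreeGroup.lift fun i => mm i 1

theorem det_ne (g : SLZ) : g.1 0 0 ≠ 0 ∨ g.1 1 0 ≠ 0 := by
  by_contra h
  push Not at h
  have hd := g.2
  rw [Matrix.det_fin_two, h.1, h.2] at hd
  simp at hd

/-- the ping-pong sets -/
def ppX : Fin 3 → Set SLZ :=
  ![{g | 4 * |g.1 1 0| ≤ |g.1 0 0|}, {g | 4 * |g.1 0 0| ≤ |g.1 1 0|}, {g | 4 * |g.1 0 0 - g.1 1 0| ≤ |g.1 1 0|}]

theorem m0_mul_0 (n : ℤ) (g : SLZ) : (m0 n * g).1 0 0 = g.1 0 0 + 8 * n * g.1 1 0 := by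
  simp [m0, Matrix.mul_apply, Fin.sum_univ_two]
theorem m0_mul_1 (n : ℤ) (g : SLZ) : (m0 n * g).1 1 0 = g.1 1 0 := by
  simp [m0, Matrix.mul_apply, Fin.sum_univ_two]
theorem m1_mul_0 (n : ℤ) (g : SLZ) : (m1 n * g).1 0 0 = g.1 0 0 := by
  simp [m1, Matrix.mul_apply, Fin.sum_univ_two]
theorem m1_mul_1 (n : ℤ) (g : SLZ) : (m1 n * g).1 1 0 = g.1 1 0 + 8 * n * g.1 0 0 := by
  simp [m1, Matrix.mul_apply, Fin.sum_univ_two]
  ring
theorem m2_mul_0 (n : ℤ) (g : SLZ) : (m2 n * g).1 0 0 = g.1 0 0 + 8 * n * (g.1 0 0 - g.1 1 0) := by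
  simp [m2, Matrix.mul_apply, Fin.sum_univ_two]
  ring
theorem m2_mul_1 (n : ℤ) (g : SLZ) : (m2 n * g).1 1 0 = g.1 1 0 + 8 * n * (g.1 0 0 - g.1 1 0) := by
  simp [m2, Matrix.mul_apply, Fin.sum_univ_two]
  ring

theorem abs_aux (a b n : ℤ) (hn : n ≠ 0) : 8 * |b| ≤ |a + 8 * n * b| + |a| := by
  have h1 : |8 * n * b| = 8 * |n| * |b| := by rw [abs_mul, abs_mul]; simp
  have h2 : |8 * n * b| ≤ |a + 8 * n * b| + |a| := by
    have := abs_sub (a + 8 * n * b) a
    have h3 : a + 8 * n * b - a = 8 * n * b := by ring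
    rwa [h3] at this
  have h4 : 1 ≤ |n| := Int.one_le_abs hn
  have h5 : 0 ≤ |b| := abs_nonneg b
  nlinarith

theorem abs1 (a b : ℤ) : |a| ≤ |b| + |a - b| := by
  have := abs_add_le b (a - b)
  have h : b + (a - b) = a := by ring
  rwa [h] at this

theorem abs2 (a b : ℤ) : |b| ≤ |a| + |a - b| := by
  have := abs_add_le a (b - a)
  have h : a + (b - a) = b := by ring
  rw [h, abs_sub_comm b a] at this
  exact this

theorem abs3 (a b : ℤ) : |a - b| ≤ |a| + |b| := abs_sub a b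

open Cardinal in
open scoped Pointwise Function in
theorem rho_injective : Function.Injective rho := by
  have h0 : rho = (Monoid.CoprodI.lift fun i => FreeGroup.lift fun _ : Unit => mm i 1).comp
      (freeGroupEquivCoprodI (ι := Fin 3)).toMonoidHom := by
    apply FreeGroup.ext_hom
    intro i
    simp [rho]
  rw [h0, MonoidHom.coe_comp]
  refine Function.Injective.comp ?_ (MulEquiv.injective freeGroupEquivCoprodI)
  have hpp : Pairwise fun i j => ∀ h : FreeGroup Unit, h ≠ 1 →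
      (FreeGroup.lift fun _ : Unit => mm i 1) h • ppX j ⊆ ppX i := by
    intro i j hij h hne
    obtain ⟨n, rfl⟩ : ∃ n : ℤ, h = FreeGroup.of () ^ n :=
      ⟨FreeGroup.freeGroupUnitEquivInt h, (FreeGroup.freeGroupUnitEquivInt.left_inv h).symm⟩
    have hn : n ≠ 0 := by
      rintro rfl
      exact hne (zpow_zero _)
    rw [map_zpow, FreeGroup.lift_apply_of]
    rintro w ⟨g, hg, rfl⟩
    show mm i 1 ^ n * g ∈ ppX i
    rw [mm_pow]
    have e1 := abs1 (g.1 0 0) (g.1 1 0)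
    have e2 := abs2 (g.1 0 0) (g.1 1 0)
    have e3 := abs3 (g.1 0 0) (g.1 1 0)
    have p1 := abs_nonneg (g.1 0 0)
    have p2 := abs_nonneg (g.1 1 0)
    have p3 := abs_nonneg (g.1 0 0 - g.1 1 0)
    fin_cases i <;> fin_cases j
    · exact absurd rfl hij
    · show 4 * |(m0 n * g).1 1 0| ≤ |(m0 n * g).1 0 0|
      have hg' : 4 * |g.1 0 0| ≤ |g.1 1 0| := hg
      rw [m0_mul_0, m0_mul_1]
      have := abs_aux (g.1 0 0) (g.1 1 0) n hn
      linarith
    · show 4 * |(m0 n * g).1 1 0| ≤ |(m0 n * g).1 0 0|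
      have hg' : 4 * |g.1 0 0 - g.1 1 0| ≤ |g.1 1 0| := hg
      rw [m0_mul_0, m0_mul_1]
      have := abs_aux (g.1 0 0) (g.1 1 0) n hn
      linarith
    · show 4 * |(m1 n * g).1 0 0| ≤ |(m1 n * g).1 1 0|
      have hg' : 4 * |g.1 1 0| ≤ |g.1 0 0| := hg
      rw [m1_mul_0, m1_mul_1]
      have := abs_aux (g.1 1 0) (g.1 0 0) n hn
      linarith
    · exact absurd rfl hij
    · show 4 * |(m1 n * g).1 0 0| ≤ |(m1 n * g).1 1 0|
      have hg' : 4 * |g.1 0 0 - g.1 1 0| ≤ |g.1 1 0| := hg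
      rw [m1_mul_0, m1_mul_1]
      have := abs_aux (g.1 1 0) (g.1 0 0) n hn
      linarith
    · show 4 * |(m2 n * g).1 0 0 - (m2 n * g).1 1 0| ≤ |(m2 n * g).1 1 0|
      have hg' : 4 * |g.1 1 0| ≤ |g.1 0 0| := hg
      rw [m2_mul_0, m2_mul_1]
      have := abs_aux (g.1 1 0) (g.1 0 0 - g.1 1 0) n hn
      have h3 : g.1 0 0 + 8 * n * (g.1 0 0 - g.1 1 0) - (g.1 1 0 + 8 * n * (g.1 0 0 - g.1 1 0)) = g.1 0 0 - g.1 1 0 := by
        ring
      rw [h3]
      linarith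
    · show 4 * |(m2 n * g).1 0 0 - (m2 n * g).1 1 0| ≤ |(m2 n * g).1 1 0|
      have hg' : 4 * |g.1 0 0| ≤ |g.1 1 0| := hg
      rw [m2_mul_0, m2_mul_1]
      have := abs_aux (g.1 1 0) (g.1 0 0 - g.1 1 0) n hn
      have h3 : g.1 0 0 + 8 * n * (g.1 0 0 - g.1 1 0) - (g.1 1 0 + 8 * n * (g.1 0 0 - g.1 1 0)) = g.1 0 0 - g.1 1 0 := by
        ring
      rw [h3]
      linarith
    · exact absurd rfl hij
  refine Monoid.CoprodI.lift_injective_of_ping_pong
    (fun i : Fin 3 => FreeGroup.lift fun _ : Unit => mm i 1) ?_ ppX ?_ ?_ hpp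
  · right
    refine ⟨0, ?_⟩
    rw [FreeGroup.freeGroupUnitEquivInt.cardinal_eq, Cardinal.mk_denumerable]
    exact Cardinal.natCast_le_aleph0
  · intro i
    fin_cases i
    · exact ⟨1, by show 4 * |(0 : ℤ)| ≤ |(1 : ℤ)|; decide⟩
    · exact ⟨⟨!![0, -1; 1, 0], by decide⟩, by show 4 * |(0 : ℤ)| ≤ |(1 : ℤ)|; decide⟩
    · exact ⟨⟨!![1, 0; 1, 1], by decide⟩, by show 4 * |(1 : ℤ) - 1| ≤ |(1 : ℤ)|; decide⟩
  · intro i j hij
    show Disjoint (ppX i) (ppX j)
    rw [Set.disjoint_left]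
    intro g hg hg2
    have hne := det_ne g
    have e1 := abs1 (g.1 0 0) (g.1 1 0)
    have e2 := abs2 (g.1 0 0) (g.1 1 0)
    have e3 := abs3 (g.1 0 0) (g.1 1 0)
    have p1 := abs_nonneg (g.1 0 0)
    have p2 := abs_nonneg (g.1 1 0)
    have p3 := abs_nonneg (g.1 0 0 - g.1 1 0)
    have key : |g.1 0 0| = 0 ∧ |g.1 1 0| = 0 → False := by
      rintro ⟨h1, h2⟩
      rw [abs_eq_zero] at h1 h2
      rcases hne with h | h
      · exact h h1
      · exact h h2
    apply key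
    fin_cases i <;> fin_cases j
    · exact absurd rfl hij
    · have h1 : 4 * |g.1 1 0| ≤ |g.1 0 0| := hg
      have h2 : 4 * |g.1 0 0| ≤ |g.1 1 0| := hg2
      constructor <;> linarith
    · have h1 : 4 * |g.1 1 0| ≤ |g.1 0 0| := hg
      have h2 : 4 * |g.1 0 0 - g.1 1 0| ≤ |g.1 1 0| := hg2
      constructor <;> linarith
    · have h1 : 4 * |g.1 0 0| ≤ |g.1 1 0| := hg
      have h2 : 4 * |g.1 1 0| ≤ |g.1 0 0| := hg2
      constructor <;> linarith
    · exact absurd rfl hij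
    · have h1 : 4 * |g.1 0 0| ≤ |g.1 1 0| := hg
      have h2 : 4 * |g.1 0 0 - g.1 1 0| ≤ |g.1 1 0| := hg2
      constructor <;> linarith
    · have h1 : 4 * |g.1 0 0 - g.1 1 0| ≤ |g.1 1 0| := hg
      have h2 : 4 * |g.1 1 0| ≤ |g.1 0 0| := hg2
      constructor <;> linarith
    · have h1 : 4 * |g.1 0 0 - g.1 1 0| ≤ |g.1 1 0| := hg
      have h2 : 4 * |g.1 0 0| ≤ |g.1 1 0| := hg2
      constructor <;> linarith
    · exact absurd rfl hij

end Pool.Agent.Work.MP_97dc52_al
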