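import Pool.Agent.Work.MP_97dc52_al.Simple
import Pool.Agent.Work.MP_97dc52_al.PP

/-!
The reductions of the free subgroup of `SL(2, ℤ)` modulo primes.
-/

set_option autoImplicit false

namespace Pool.Agent.Work.MP_97dc52_al

open FreeGroup (of)
open scoped commutatorElement MatrixGroups

theorem emb_injective : Function.Injective emb := by
  have h : (FreeGroup.lift ![(of 0 : F2), of 1, 1]).comp emb = MonoidHom.id F2 := by
    apply FreeGroup.ext_hom
    intro i
    fin_cases i
    · show FreeGroup.lift ![(of 0 : F2), of 1, 1] (emb (of 0)) = of 0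
      rw [emb_0]
      simp
    · show FreeGroup.lift ![(of 0 : F2), of 1, 1] (emb (of 1)) = of 1
      rw [emb_1]
      simp
  intro a b hab
  have h1 := DFunLike.congr_fun h a
  have h2 := DFunLike.congr_fun h b
  rw [MonoidHom.comp_apply, hab] at h1
  exact h1.symm.trans h2

/-- The representation of the free group of rank two. -/
def rho2 : F2 →* SLZ := rho.comp emb

theorem rho2_injective : Function.Injective rho2 := rho_injective.comp emb_injective

/-- The reduction. -/
def red (p : ℕ) : SLZ →* SL(2, ZMod p) := Matrix.SpecialLinearGroup.map (Int.castRingHom (ZMod p))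

/-- The group `PSL(2, p)`. -/
abbrev QQ (p : ℕ) := PSL(2, ZMod p)

def pip (p : ℕ) : F2 →* QQ p := (QuotientGroup.mk' _).comp ((red p).comp rho2)

theorem rho2_0 : rho2 (of 0) = m0 1 := by
  show rho (emb (of 0)) = m0 1
  rw [emb_0, rho, FreeGroup.lift_apply_of]
  rfl

theorem rho2_1 : rho2 (of 1) = m1 1 := by
  show rho (emb (of 1)) = m1 1
  rw [emb_1, rho, FreeGroup.lift_apply_of]
  rfl

theorem red_surj (p : ℕ) [hp : Fact p.Prime] (hp2 : p ≠ 2) (M : SL(2, ZMod p)) : M ∈ ((red p).comp rho2).range := by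
  have h8 : (8 : ZMod p) ≠ 0 := by
    intro h
    have h1 : ((8 : ℕ) : ZMod p) = 0 := by exact_mod_cast h
    rw [ZMod.natCast_eq_zero_iff] at h1
    have h2 : p ∣ 2 ^ 3 := h1
    have h3 := hp.out.dvd_of_dvd_pow h2
    exact hp2 ((Nat.prime_dvd_prime_iff_eq hp.out Nat.prime_two).mp h3)
  induction M using Matrix.SL2.transvection_induction with
  | htransvec i j h c =>
    obtain ⟨k, hk⟩ : ∃ k : ℤ, (8 : ZMod p) * k = c := by
      obtain ⟨k, hk⟩ := ZMod.intCast_surjective ((8 : ZMod p)⁻¹ * c)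
      exact ⟨k, by rw [hk, mul_inv_cancel_left₀ h8]⟩
    fin_cases i <;> fin_cases j
    · exact absurd rfl h
    · refine ⟨of 0 ^ k, ?_⟩
      show red p (rho2 (of 0 ^ k)) = _
      rw [map_zpow, rho2_0, zpow_of_add m0 m0_zero m0_add k]
      apply Subtype.ext
      show (m0 k).1.map (Int.castRingHom (ZMod p)) = _
      ext a b
      rw [Matrix.SpecialLinearGroup.transvection_coe]
      fin_cases a <;> fin_cases b <;> simp [m0, hk, Matrix.single]
    · refine ⟨of 1 ^ k, ?_⟩
      show red p (rho2 (of 1 ^ k)) = _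
      rw [map_zpow, rho2_1, zpow_of_add m1 m1_zero m1_add k]
      apply Subtype.ext
      show (m1 k).1.map (Int.castRingHom (ZMod p)) = _
      ext a b
      rw [Matrix.SpecialLinearGroup.transvection_coe]
      fin_cases a <;> fin_cases b <;> simp [m1, hk, Matrix.single]
    · exact absurd rfl h
  | hmul A B hA hB => exact mul_mem hA hB

theorem pip_surj (p : ℕ) [hp : Fact p.Prime] (hp2 : p ≠ 2) : Function.Surjective (pip p) := by
  intro q
  obtain ⟨M, rfl⟩ := QuotientGroup.mk'_surjective _ q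
  obtain ⟨v, rfl⟩ := red_surj p hp2 M
  exact ⟨v, rfl⟩

theorem pip_ne_one (v : F2) (hv : v ≠ 1) : ∃ B : ℕ, ∀ p : ℕ, p.Prime → B < p → pip p v ≠ 1 := by
  set g := rho2 v with hg
  refine ⟨(g.1 0 1).natAbs + (g.1 1 0).natAbs + (g.1 0 0 - g.1 1 1).natAbs, fun p hp hB h1 => ?_⟩
  haveI := Fact.mk hp
  have h2 : red p g ∈ Subgroup.center (SL(2, ZMod p)) := (QuotientGroup.eq_one_iff _).mp h1
  rw [Matrix.SpecialLinearGroup.mem_center_iff] at h2
  obtain ⟨r, _, hr⟩ := h2
  have hr' : ∀ i j, ((g.1 i j : ℤ) : ZMod p) = (Matrix.scalar (Fin 2) r) i j := by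
    intro i j
    rw [hr]
    rfl
  have hsmall : ∀ x : ℤ, x.natAbs < p → ((x : ℤ) : ZMod p) = 0 → x = 0 := by
    intro x hx h0
    rw [ZMod.intCast_zmod_eq_zero_iff_dvd] at h0
    apply Int.eq_zero_of_abs_lt_dvd h0
    rw [Int.abs_eq_natAbs]
    exact_mod_cast hx
  have h01 : g.1 0 1 = 0 := by
    apply hsmall _ (by omega)
    rw [hr']
    simp [Matrix.scalar_apply]
  have h10 : g.1 1 0 = 0 := by
    apply hsmall _ (by omega)
    rw [hr']
    simp [Matrix.scalar_apply]
  have h00 : g.1 0 0 - g.1 1 1 = 0 := by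
    apply hsmall _ (by omega)
    rw [Int.cast_sub, hr', hr']
    simp [Matrix.scalar_apply]
  have hdet : g.1 0 0 * g.1 0 0 = 1 := by
    have h := g.2
    rw [Matrix.det_fin_two, h01, h10] at h
    have : g.1 1 1 = g.1 0 0 := by linarith
    rw [this] at h
    linarith
  have hsq : g ^ 2 = 1 := by
    rw [pow_two]
    apply Subtype.ext
    show g.1 * g.1 = 1
    have h11 : g.1 1 1 = g.1 0 0 := by linarith
    ext i j
    fin_cases i <;> fin_cases j <;> simp [Matrix.mul_apply, Fin.sum_univ_two, h01, h10, h11, hdet]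
  have hv2 : v ^ 2 = 1 := by
    apply rho2_injective
    rw [map_pow, map_one]
    exact hsq
  exact hv ((pow_eq_one_iff_left (two_ne_zero)).mp hv2)

theorem QQ_simple (p : ℕ) [hp : Fact p.Prime] (hp5 : 5 ≤ p) : IsSimpleGroup (QQ p) := by
  apply Matrix.ProjectiveSpecialLinearGroup.rank_two_simple
  rw [Nat.card_zmod]
  omega

theorem QQ_noncomm (p : ℕ) [hp : Fact p.Prime] (hp5 : 5 ≤ p) : ∃ a b : QQ p, a * b ≠ b * a := by
  by_contra hcon
  push Not at hcon
  haveI hs := QQ_simple p hp5
  have hfield : ∃ a : ZMod p, a ≠ 0 ∧ a ^ 2 ≠ 1 := by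
    refine ⟨2, ?_, ?_⟩
    · intro h
      have h1 : ((2 : ℕ) : ZMod p) = 0 := by exact_mod_cast h
      rw [ZMod.natCast_eq_zero_iff] at h1
      have := Nat.le_of_dvd (by norm_num) h1
      omega
    · intro h
      have h1 : ((3 : ℕ) : ZMod p) = 0 := by
        push_cast
        linear_combination h
      rw [ZMod.natCast_eq_zero_iff] at h1
      have := Nat.le_of_dvd (by norm_num) h1
      omega
  have h1 := SL2Simple.PSL_commutator_eq_top (F := ZMod p) hfield
  have h2 : _root_.commutator (QQ p) = ⊥ := by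
    rw [commutator_def, Subgroup.commutator_eq_bot_iff_le_centralizer]
    intro a _
    rw [Subgroup.mem_centralizer_iff]
    intro b _
    exact hcon b a
  rw [h1] at h2
  exact top_ne_bot h2

end Pool.Agent.Work.MP_97dc52_al
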