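import Pool.Agent.Work.MP_97dc52_al.MT

/-!
The nilpotent quotients and the quotients by verbal subgroups of the mapping tori.
-/

set_option autoImplicit false

namespace Pool.Agent.Work.MP_97dc52_al

open FreeGroup (of)

section

variable {H : Type*} [Group H]

theorem comm_val {x y t : H} (hx : t * x = x * t) (hy : t * y = y * t) (v : F2) : t * val v x y = val v x y * t := by
  have e : (MulAut.conj t).toMonoidHom.comp (FreeGroup.lift ![x, y]) = FreeGroup.lift ![x, y] := by
    apply FreeGroup.ext_hom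
    intro i
    fin_cases i
    · show t * FreeGroup.lift ![x, y] (of 0) * t⁻¹ = FreeGroup.lift ![x, y] (of 0)
      simp [hx]
    · show t * FreeGroup.lift ![x, y] (of 1) * t⁻¹ = FreeGroup.lift ![x, y] (of 1)
      simp [hy]
  have := DFunLike.congr_fun e v
  have h2 : t * val v x y * t⁻¹ = val v x y := this
  exact mul_inv_eq_iff_eq_mul.mp h2

theorem map_val {K : Type*} [Group K] (f : H →* K) (x y : H) (v : F2) : f (val v x y) = val v (f x) (f y) := by
  have e : f.comp (FreeGroup.lift ![x, y]) = FreeGroup.lift ![f x, f y] := by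
    apply FreeGroup.ext_hom
    intro i
    fin_cases i <;> simp
  exact DFunLike.congr_fun e v

theorem val_mul (x y : H) (v v' : F2) : val (v * v') x y = val v x y * val v' x y := map_mul _ _ _

theorem val_of_0 (x y : H) : val (of 0) x y = x := by simp [val]

theorem val_of_1 (x y : H) : val (of 1) x y = y := by simp [val]

end

/-! ### Nilpotent quotients -/

section

variable {w : F2}

/-- The endomorphism `x ↦ w, y ↦ y`. -/
def theta (w : F2) : F2 →* F2 := FreeGroup.lift ![w, of 1]

theorem theta_comm (hw : w * (of 0)⁻¹ ∈ _root_.commutator F2) (v : F2) : theta w v * v⁻¹ ∈ _root_.commutator F2 := by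
  have e : (Abelianization.of).comp (theta w) = (Abelianization.of : F2 →* Abelianization F2) := by
    apply FreeGroup.ext_hom
    intro i
    fin_cases i
    · show Abelianization.of (theta w (of 0)) = Abelianization.of (of 0)
      have : theta w (of 0) = w := by simp [theta]
      rw [this]
      rw [← mul_inv_eq_one, ← map_inv, ← map_mul]
      rw [← MonoidHom.mem_ker, Abelianization.ker_of]
      exact hw
    · show Abelianization.of (theta w (of 1)) = Abelianization.of (of 1)
      have : theta w (of 1) = of 1 := by simp [theta]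
      rw [this]
  rw [← Abelianization.ker_of, MonoidHom.mem_ker, map_mul, map_inv, mul_inv_eq_one]
  exact DFunLike.congr_fun e v

/-- The homomorphism `X ↦ w(X, Y), Y ↦ Y, Z ↦ Z, T ↦ T` from the base group. -/
theorem rel_A (w : F2) : Rel (of 0) (val w (gX w) (gY w)) (gY w) (gZ w) (gT w) := by
  have h := rel_gen w
  refine ⟨comm_val h.1 h.2.1 w, h.2.1, ?_⟩
  rw [val_of_0]
  exact h.2.2

def AHom (w : F2) : MT (phi (of 0)) →* MT (phi w) := (rel_A w).hom

/-- The induced endomorphism of the nilpotent quotient of the free group. -/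
def thetaBar (w : F2) (c : ℕ) : F2 ⧸ gam F2 c →* F2 ⧸ gam F2 c :=
  QuotientGroup.map _ _ (theta w) (Subgroup.map_le_iff_le_comap.mp (map_gam_le _ _))

theorem thetaBar_mk (w : F2) (c : ℕ) (v : F2) :
    thetaBar w c (QuotientGroup.mk v) = QuotientGroup.mk (theta w v) := rfl

theorem thetaBar_comm (hw : w * (of 0)⁻¹ ∈ _root_.commutator F2) (c : ℕ) (n : F2 ⧸ gam F2 c) :
    thetaBar w c n * n⁻¹ ∈ _root_.commutator (F2 ⧸ gam F2 c) := by
  obtain ⟨v, rfl⟩ := QuotientGroup.mk_surjective n
  have h := theta_comm hw v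
  have h2 : QuotientGroup.mk' (gam F2 c) (theta w v * v⁻¹) ∈ (_root_.commutator F2).map (QuotientGroup.mk' (gam F2 c)) :=
    Subgroup.mem_map_of_mem _ h
  rw [commutator_def, Subgroup.map_commutator] at h2
  exact Subgroup.commutator_mono le_top le_top h2

theorem thetaBar_bij (hw : w * (of 0)⁻¹ ∈ _root_.commutator F2) (c : ℕ) : Function.Bijective (thetaBar w c) :=
  endo_bijective _ (thetaBar_comm hw c) (gam_quot c)

/-- The map of the nilpotent quotient of `F2` to that of the base group. -/
def jHom (w : F2) (c : ℕ) : F2 ⧸ gam F2 c →* MT (phi w) ⧸ gam (MT (phi w)) c :=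
  QuotientGroup.map _ _ (FreeGroup.lift ![gX w, gY w]) (Subgroup.map_le_iff_le_comap.mp (map_gam_le _ _))

theorem jHom_mk (w : F2) (c : ℕ) (v : F2) :
    jHom w c (QuotientGroup.mk v) = QuotientGroup.mk (val v (gX w) (gY w)) := rfl

theorem quot_iso_nilp (hw : w * (of 0)⁻¹ ∈ _root_.commutator F2) (c : ℕ) :
    ∃ e : (MT (phi (of 0)) ⧸ gam (MT (phi (of 0))) c) ≃* (MT (phi w) ⧸ gam (MT (phi w)) c),
      ∀ g : MT (phi (of 0)), e (QuotientGroup.mk g) = QuotientGroup.mk (AHom w g) := by
  -- the map A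
  let A : (MT (phi (of 0)) ⧸ gam (MT (phi (of 0))) c) →* (MT (phi w) ⧸ gam (MT (phi w)) c) :=
    QuotientGroup.map _ _ (AHom w) (Subgroup.map_le_iff_le_comap.mp (map_gam_le _ _))
  have hA : ∀ g : MT (phi (of 0)), A (QuotientGroup.mk g) = QuotientGroup.mk (AHom w g) := fun g => rfl
  -- the inverse of thetaBar
  let E : (F2 ⧸ gam F2 c) ≃* (F2 ⧸ gam F2 c) := MulEquiv.ofBijective (thetaBar w c) (thetaBar_bij hw c)
  have hE : ∀ n, E n = thetaBar w c n := fun n => rfl
  have hth0 : theta w (of 0) = w := by simp [theta]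
  have hth1 : theta w (of 1) = of 1 := by simp [theta]
  have hE1 : E.symm (QuotientGroup.mk (of 1)) = QuotientGroup.mk (of 1) := by
    rw [MulEquiv.symm_apply_eq, hE, thetaBar_mk, hth1]
  have hEw : E.symm (QuotientGroup.mk w) = QuotientGroup.mk (of 0) := by
    rw [MulEquiv.symm_apply_eq, hE, thetaBar_mk, hth0]
  obtain ⟨u, hu⟩ := QuotientGroup.mk_surjective (E.symm (QuotientGroup.mk (of 0)))
  have hq := (rel_gen (of 0)).map (QuotientGroup.mk' (gam (MT (phi (of 0))) c))
  set X : MT (phi (of 0)) ⧸ gam (MT (phi (of 0))) c := QuotientGroup.mk' (gam (MT (phi (of 0))) c) (gX (of 0)) with hX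
  set Y : MT (phi (of 0)) ⧸ gam (MT (phi (of 0))) c := QuotientGroup.mk' (gam (MT (phi (of 0))) c) (gY (of 0)) with hY
  set Z : MT (phi (of 0)) ⧸ gam (MT (phi (of 0))) c := QuotientGroup.mk' (gam (MT (phi (of 0))) c) (gZ (of 0)) with hZ
  set T : MT (phi (of 0)) ⧸ gam (MT (phi (of 0))) c := QuotientGroup.mk' (gam (MT (phi (of 0))) c) (gT (of 0)) with hT
  have hjv : ∀ v : F2, jHom (of 0) c (QuotientGroup.mk v) = val v X Y := by
    intro v
    rw [jHom_mk]
    exact map_val (QuotientGroup.mk' (gam (MT (phi (of 0))) c)) _ _ v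
  have hlift : FreeGroup.lift ![val u X Y, Y] =
      (jHom (of 0) c).comp (E.symm.toMonoidHom.comp (QuotientGroup.mk' (gam F2 c))) := by
    apply FreeGroup.ext_hom
    intro i
    fin_cases i
    · show FreeGroup.lift ![val u X Y, Y] (of 0) = jHom (of 0) c (E.symm (QuotientGroup.mk (of 0)))
      rw [← hu, hjv]
      simp
    · show FreeGroup.lift ![val u X Y, Y] (of 1) = jHom (of 0) c (E.symm (QuotientGroup.mk (of 1)))
      rw [hE1, hjv, val_of_1]
      simp
  have hval : val w (val u X Y) Y = X := by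
    have h1 : val w (val u X Y) Y = jHom (of 0) c (E.symm (QuotientGroup.mk w)) := DFunLike.congr_fun hlift w
    rw [h1, hEw, hjv, val_of_0]
  have hB : Rel w (val u X Y) Y Z T := by
    refine ⟨comm_val hq.1 hq.2.1 u, hq.2.1, ?_⟩
    rw [hval]
    have := hq.2.2
    rw [val_of_0] at this
    exact this
  let B : (MT (phi w) ⧸ gam (MT (phi w)) c) →* (MT (phi (of 0)) ⧸ gam (MT (phi (of 0))) c) :=
    QuotientGroup.lift _ hB.hom (by
      intro g hg
      have h1 : hB.hom g ∈ gam (MT (phi (of 0)) ⧸ gam (MT (phi (of 0))) c) c :=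
        map_gam_le _ _ (Subgroup.mem_map_of_mem _ hg)
      rw [gam_quot] at h1
      exact h1)
  have hBmk : ∀ g : MT (phi w), B (QuotientGroup.mk g) = hB.hom g := fun g => rfl
  have h1 : B.comp A = MonoidHom.id _ := by
    apply QuotientGroup.monoidHom_ext
    apply mt_hom_ext
    · show B (A (QuotientGroup.mk (gX (of 0)))) = X
      rw [hA, hBmk]
      show hB.hom ((rel_A w).hom (gX (of 0))) = X
      rw [Rel.hom_X, map_val, Rel.hom_X, Rel.hom_Y, hval]
    · show B (A (QuotientGroup.mk (gY (of 0)))) = Y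
      rw [hA, hBmk]
      show hB.hom ((rel_A w).hom (gY (of 0))) = Y
      rw [Rel.hom_Y, Rel.hom_Y]
    · show B (A (QuotientGroup.mk (gZ (of 0)))) = Z
      rw [hA, hBmk]
      show hB.hom ((rel_A w).hom (gZ (of 0))) = Z
      rw [Rel.hom_Z, Rel.hom_Z]
    · show B (A (QuotientGroup.mk (gT (of 0)))) = T
      rw [hA, hBmk]
      show hB.hom ((rel_A w).hom (gT (of 0))) = T
      rw [Rel.hom_T, Rel.hom_T]
  have hAX : A X = QuotientGroup.mk (val w (gX w) (gY w)) := by
    show A (QuotientGroup.mk (gX (of 0))) = _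
    rw [hA]
    exact congrArg _ (Rel.hom_X (rel_A w))
  have hAY : A Y = QuotientGroup.mk (gY w) := by
    show A (QuotientGroup.mk (gY (of 0))) = _
    rw [hA]
    exact congrArg _ (Rel.hom_Y (rel_A w))
  have hAZ : A Z = QuotientGroup.mk (gZ w) := by
    show A (QuotientGroup.mk (gZ (of 0))) = _
    rw [hA]
    exact congrArg _ (Rel.hom_Z (rel_A w))
  have hAT : A T = QuotientGroup.mk (gT w) := by
    show A (QuotientGroup.mk (gT (of 0))) = _
    rw [hA]
    exact congrArg _ (Rel.hom_T (rel_A w))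
  have h2 : A.comp B = MonoidHom.id _ := by
    apply QuotientGroup.monoidHom_ext
    apply mt_hom_ext
    · show A (B (QuotientGroup.mk (gX w))) = QuotientGroup.mk (gX w)
      rw [hBmk, Rel.hom_X, map_val, hAX, hAY]
      have e1 : FreeGroup.lift ![(QuotientGroup.mk (val w (gX w) (gY w)) : MT (phi w) ⧸ gam (MT (phi w)) c),
          QuotientGroup.mk (gY w)] = (jHom w c).comp ((thetaBar w c).comp (QuotientGroup.mk' (gam F2 c))) := by
        apply FreeGroup.ext_hom
        intro i
        fin_cases i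
        · show FreeGroup.lift ![(QuotientGroup.mk (val w (gX w) (gY w)) : MT (phi w) ⧸ gam (MT (phi w)) c),
            QuotientGroup.mk (gY w)] (of 0) = jHom w c (thetaBar w c (QuotientGroup.mk (of 0)))
          rw [thetaBar_mk, hth0, jHom_mk]
          simp
        · show FreeGroup.lift ![(QuotientGroup.mk (val w (gX w) (gY w)) : MT (phi w) ⧸ gam (MT (phi w)) c),
            QuotientGroup.mk (gY w)] (of 1) = jHom w c (thetaBar w c (QuotientGroup.mk (of 1)))
          rw [thetaBar_mk, hth1, jHom_mk, val_of_1]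
          simp
      have e2 : val u (QuotientGroup.mk (val w (gX w) (gY w)) : MT (phi w) ⧸ gam (MT (phi w)) c)
          (QuotientGroup.mk (gY w)) = jHom w c (thetaBar w c (QuotientGroup.mk u)) := DFunLike.congr_fun e1 u
      rw [e2, hu]
      have e3 : thetaBar w c (E.symm (QuotientGroup.mk (of 0))) = QuotientGroup.mk (of 0) := by
        rw [← hE, MulEquiv.apply_symm_apply]
      rw [e3, jHom_mk, val_of_0]
    · show A (B (QuotientGroup.mk (gY w))) = QuotientGroup.mk (gY w)
      rw [hBmk, Rel.hom_Y, hAY]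
    · show A (B (QuotientGroup.mk (gZ w))) = QuotientGroup.mk (gZ w)
      rw [hBmk, Rel.hom_Z, hAZ]
    · show A (B (QuotientGroup.mk (gT w))) = QuotientGroup.mk (gT w)
      rw [hBmk, Rel.hom_T, hAT]
  exact ⟨MonoidHom.toMulEquiv A B h1 h2, fun g => hA g⟩

end

/-! ### Verbal quotients -/

section

/-- The verbal subgroup of `G` for the set `S` of laws. -/
def Verb {α : Type*} (S : Set (FreeGroup α)) (G : Type*) [Group G] : Subgroup G :=
  Subgroup.normalClosure {g | ∃ s ∈ S, ∃ f : α → G, FreeGroup.lift f s = g}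

instance {α : Type*} (S : Set (FreeGroup α)) (G : Type*) [Group G] : (Verb S G).Normal :=
  Subgroup.normalClosure_normal

variable {α : Type*} (S : Set (FreeGroup α))

theorem lift_mem_verb {G : Type*} [Group G] {s : FreeGroup α} (hs : s ∈ S) (f : α → G) :
    FreeGroup.lift f s ∈ Verb S G := Subgroup.subset_normalClosure ⟨s, hs, f, rfl⟩

theorem verb_map {G K : Type*} [Group G] [Group K] (f : G →* K) : (Verb S G).map f ≤ Verb S K := by
  rw [Subgroup.map_le_iff_le_comap]
  apply Subgroup.normalClosure_le_normal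
  rintro g ⟨s, hs, h, rfl⟩
  show f (FreeGroup.lift h s) ∈ Verb S K
  have e : f.comp (FreeGroup.lift h) = FreeGroup.lift (fun a => f (h a)) := by
    apply FreeGroup.ext_hom
    intro i
    simp
  have e2 : f (FreeGroup.lift h s) = FreeGroup.lift (fun a => f (h a)) s := DFunLike.congr_fun e s
  rw [e2]
  exact lift_mem_verb S hs _

/-- The identity on the generators gives a map of the quotient by the verbal subgroup. -/
theorem rel_V {w w' : F2} (h : w⁻¹ * w' ∈ Verb S F2) :
    Rel w (QuotientGroup.mk' (Verb S (MT (phi w'))) (gX w')) (QuotientGroup.mk' (Verb S (MT (phi w'))) (gY w'))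
      (QuotientGroup.mk' (Verb S (MT (phi w'))) (gZ w')) (QuotientGroup.mk' (Verb S (MT (phi w'))) (gT w')) := by
  have hq := (rel_gen w').map (QuotientGroup.mk' (Verb S (MT (phi w'))))
  refine ⟨hq.1, hq.2.1, ?_⟩
  rw [hq.2.2]
  have h1 : QuotientGroup.mk' (Verb S (MT (phi w'))) (val (w⁻¹ * w') (gX w') (gY w')) = 1 := by
    rw [QuotientGroup.mk'_apply, QuotientGroup.eq_one_iff]
    exact verb_map S (FreeGroup.lift ![gX w', gY w']) (Subgroup.mem_map_of_mem _ h)
  have h2 : val w' (QuotientGroup.mk' (Verb S (MT (phi w'))) (gX w')) (QuotientGroup.mk' (Verb S (MT (phi w'))) (gY w'))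
      = val w (QuotientGroup.mk' (Verb S (MT (phi w'))) (gX w')) (QuotientGroup.mk' (Verb S (MT (phi w'))) (gY w')) := by
    rw [map_val, val_mul] at h1
    have : val w⁻¹ (QuotientGroup.mk' (Verb S (MT (phi w'))) (gX w')) (QuotientGroup.mk' (Verb S (MT (phi w'))) (gY w'))
      = (val w (QuotientGroup.mk' (Verb S (MT (phi w'))) (gX w')) (QuotientGroup.mk' (Verb S (MT (phi w'))) (gY w')))⁻¹ :=
      map_inv _ _
    rw [this] at h1
    exact (inv_mul_eq_one.mp h1).symm
  rw [h2]

/-- The induced map of quotients. -/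
def VHom {w w' : F2} (h : w⁻¹ * w' ∈ Verb S F2) :
    (MT (phi w) ⧸ Verb S (MT (phi w))) →* (MT (phi w') ⧸ Verb S (MT (phi w'))) :=
  QuotientGroup.lift _ (rel_V S h).hom (by
    intro g hg
    have h1 : (rel_V S h).hom g ∈ Verb S (MT (phi w') ⧸ Verb S (MT (phi w'))) :=
      verb_map S _ (Subgroup.mem_map_of_mem _ hg)
    have h2 : Verb S (MT (phi w') ⧸ Verb S (MT (phi w'))) = ⊥ := by
      rw [eq_bot_iff]
      apply Subgroup.normalClosure_le_normal
      rintro k ⟨s, hs, f, rfl⟩
      show FreeGroup.lift f s = 1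
      choose f' hf' using fun a => QuotientGroup.mk'_surjective (Verb S (MT (phi w'))) (f a)
      have e : FreeGroup.lift f = (QuotientGroup.mk' (Verb S (MT (phi w')))).comp (FreeGroup.lift f') := by
        apply FreeGroup.ext_hom
        intro i
        simp only [FreeGroup.lift_apply_of, MonoidHom.comp_apply]
        exact (hf' i).symm
      rw [e]
      show QuotientGroup.mk' (Verb S (MT (phi w'))) (FreeGroup.lift f' s) = 1
      rw [QuotientGroup.mk'_apply, QuotientGroup.eq_one_iff]
      exact lift_mem_verb S hs f'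
    rw [h2] at h1
    exact h1)

theorem VHom_mk {w w' : F2} (h : w⁻¹ * w' ∈ Verb S F2) (g : MT (phi w)) :
    VHom S h (QuotientGroup.mk g) = (rel_V S h).hom g := rfl

theorem VHom_comp {w w' : F2} (h : w⁻¹ * w' ∈ Verb S F2) (h' : w'⁻¹ * w ∈ Verb S F2) :
    (VHom S h').comp (VHom S h) = MonoidHom.id _ := by
  apply QuotientGroup.monoidHom_ext
  apply mt_hom_ext
  · show VHom S h' (VHom S h (QuotientGroup.mk (gX w))) = QuotientGroup.mk (gX w)
    rw [VHom_mk, Rel.hom_X]
    show VHom S h' (QuotientGroup.mk (gX w')) = QuotientGroup.mk (gX w)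
    rw [VHom_mk, Rel.hom_X]
    rfl
  · show VHom S h' (VHom S h (QuotientGroup.mk (gY w))) = QuotientGroup.mk (gY w)
    rw [VHom_mk, Rel.hom_Y]
    show VHom S h' (QuotientGroup.mk (gY w')) = QuotientGroup.mk (gY w)
    rw [VHom_mk, Rel.hom_Y]
    rfl
  · show VHom S h' (VHom S h (QuotientGroup.mk (gZ w))) = QuotientGroup.mk (gZ w)
    rw [VHom_mk, Rel.hom_Z]
    show VHom S h' (QuotientGroup.mk (gZ w')) = QuotientGroup.mk (gZ w)
    rw [VHom_mk, Rel.hom_Z]
    rfl
  · show VHom S h' (VHom S h (QuotientGroup.mk (gT w))) = QuotientGroup.mk (gT w)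
    rw [VHom_mk, Rel.hom_T]
    show VHom S h' (QuotientGroup.mk (gT w')) = QuotientGroup.mk (gT w)
    rw [VHom_mk, Rel.hom_T]
    rfl

theorem quot_iso_verb {w w' : F2} (h : w⁻¹ * w' ∈ Verb S F2) :
    Nonempty ((MT (phi w) ⧸ Verb S (MT (phi w))) ≃* (MT (phi w') ⧸ Verb S (MT (phi w')))) := by
  have h' : w'⁻¹ * w ∈ Verb S F2 := by
    have := inv_mem h
    rwa [mul_inv_rev, inv_inv] at this
  exact ⟨MonoidHom.toMulEquiv (VHom S h) (VHom S h') (VHom_comp S h h') (VHom_comp S h' h)⟩

end

end Pool.Agent.Work.MP_97dc52_al
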