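import Pool.Agent.Work.MP_97dc52_al.Psl

/-!
The verbal subgroups of the free group of rank two are not trivial, and the choice of the sequence.
-/

set_option autoImplicit false

namespace Pool.Agent.Work.MP_97dc52_al

open FreeGroup (of)
open scoped commutatorElement MatrixGroups

theorem pp01 {n : ℤ} (hn : n ≠ 0) {g : SLZ} (hg : 4 * |g.1 0 0| ≤ |g.1 1 0|) :
    4 * |(m0 n * g).1 1 0| ≤ |(m0 n * g).1 0 0| := by
  rw [m0_mul_0, m0_mul_1]
  have := abs_aux (g.1 0 0) (g.1 1 0) n hn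
  have p1 := abs_nonneg (g.1 0 0)
  have p2 := abs_nonneg (g.1 1 0)
  linarith

theorem pp10 {n : ℤ} (hn : n ≠ 0) {g : SLZ} (hg : 4 * |g.1 1 0| ≤ |g.1 0 0|) :
    4 * |(m1 n * g).1 0 0| ≤ |(m1 n * g).1 1 0| := by
  rw [m1_mul_0, m1_mul_1]
  have := abs_aux (g.1 1 0) (g.1 0 0) n hn
  have p1 := abs_nonneg (g.1 0 0)
  have p2 := abs_nonneg (g.1 1 0)
  linarith

theorem pp_disj {g : SLZ} (h1 : 4 * |g.1 0 0| ≤ |g.1 1 0|) (h2 : 4 * |g.1 1 0| ≤ |g.1 0 0|) : False := by
  have p1 := abs_nonneg (g.1 0 0)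
  have p2 := abs_nonneg (g.1 1 0)
  have h3 : |g.1 0 0| = 0 := by linarith
  have h4 : |g.1 1 0| = 0 := by linarith
  rw [abs_eq_zero] at h3 h4
  rcases det_ne g with h | h
  · exact h h3
  · exact h h4

/-- The conjugates. -/
def cc (i : ℕ) : SLZ := m0 i * m1 1 * (m0 i)⁻¹

theorem cc_pow (i : ℕ) (k : ℤ) : cc i ^ k = m0 i * m1 k * (m0 i)⁻¹ := by
  rw [cc, conj_zpow, zpow_of_add m1 m1_zero m1_add k]

theorem m0_inv (n : ℤ) : (m0 n)⁻¹ = m0 (-n) := by
  rw [inv_eq_iff_mul_eq_one, m0_add]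
  simpa using m0_zero

/-- The Weyl element. -/
def mS : SLZ := ⟨!![0, -1; 1, 0], by decide⟩

/-- the ping-pong sets -/
def ccX (i : ℕ) : Set SLZ := {g | 4 * |((m0 i)⁻¹ * g).1 0 0| ≤ |((m0 i)⁻¹ * g).1 1 0|}

open Cardinal in
open scoped Pointwise Function in
theorem cc_injective : Function.Injective (FreeGroup.lift cc) := by
  have h0 : FreeGroup.lift cc = (Monoid.CoprodI.lift fun i => FreeGroup.lift fun _ : Unit => cc i).comp
      (freeGroupEquivCoprodI (ι := ℕ)).toMonoidHom := by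
    apply FreeGroup.ext_hom
    intro i
    simp
  rw [h0, MonoidHom.coe_comp]
  refine Function.Injective.comp ?_ (MulEquiv.injective freeGroupEquivCoprodI)
  have hpp : Pairwise fun i j => ∀ h : FreeGroup Unit, h ≠ 1 →
      (FreeGroup.lift fun _ : Unit => cc i) h • ccX j ⊆ ccX i := by
    intro i j hij h hne
    obtain ⟨n, rfl⟩ : ∃ n : ℤ, h = FreeGroup.of () ^ n :=
      ⟨FreeGroup.freeGroupUnitEquivInt h, (FreeGroup.freeGroupUnitEquivInt.left_inv h).symm⟩
    have hn : n ≠ 0 := by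
      rintro rfl
      exact hne (zpow_zero _)
    rw [map_zpow, FreeGroup.lift_apply_of]
    rintro w ⟨g, hg, rfl⟩
    show cc i ^ n * g ∈ ccX i
    rw [cc_pow]
    have hg' : 4 * |((m0 j)⁻¹ * g).1 0 0| ≤ |((m0 j)⁻¹ * g).1 1 0| := hg
    have hne : (j : ℤ) - i ≠ 0 := by
      intro h
      apply hij
      have : (j : ℤ) = i := by linarith
      exact_mod_cast this.symm
    have h1 := pp10 hn (pp01 hne hg')
    have e : (m0 i)⁻¹ * (m0 i * m1 n * (m0 i)⁻¹ * g) = m1 n * (m0 ((j : ℤ) - i) * ((m0 j)⁻¹ * g)) := by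
      have e2 : m0 ((j : ℤ) - i) = (m0 i)⁻¹ * m0 j := by
        rw [m0_inv, m0_add]
        congr 1
        ring
      rw [e2]
      group
    show 4 * |((m0 i)⁻¹ * (m0 i * m1 n * (m0 i)⁻¹ * g)).1 0 0| ≤ |((m0 i)⁻¹ * (m0 i * m1 n * (m0 i)⁻¹ * g)).1 1 0|
    rw [e]
    exact h1
  refine Monoid.CoprodI.lift_injective_of_ping_pong
    (fun i : ℕ => FreeGroup.lift fun _ : Unit => cc i) ?_ ccX ?_ ?_ hpp
  · right
    refine ⟨0, ?_⟩
    rw [FreeGroup.freeGroupUnitEquivInt.cardinal_eq, Cardinal.mk_denumerable]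
    exact Cardinal.natCast_le_aleph0
  · intro i
    refine ⟨m0 i * mS, ?_⟩
    show 4 * |((m0 i)⁻¹ * (m0 i * mS)).1 0 0| ≤ |((m0 i)⁻¹ * (m0 i * mS)).1 1 0|
    rw [inv_mul_cancel_left]
    show 4 * |(0 : ℤ)| ≤ |(1 : ℤ)|
    decide
  · intro i j hij
    show Disjoint (ccX i) (ccX j)
    rw [Set.disjoint_left]
    intro g hg hg2
    have h1 : 4 * |((m0 i)⁻¹ * g).1 0 0| ≤ |((m0 i)⁻¹ * g).1 1 0| := hg
    have h2 : 4 * |((m0 j)⁻¹ * g).1 0 0| ≤ |((m0 j)⁻¹ * g).1 1 0| := hg2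
    have hne : (j : ℤ) - i ≠ 0 := by
      intro h
      apply hij
      have : (j : ℤ) = i := by linarith
      exact_mod_cast this.symm
    have h3 := pp01 hne h2
    have e : m0 ((j : ℤ) - i) * ((m0 j)⁻¹ * g) = (m0 i)⁻¹ * g := by
      have e2 : m0 ((j : ℤ) - i) = (m0 i)⁻¹ * m0 j := by
        rw [m0_inv, m0_add]
        congr 1
        ring
      rw [e2]
      group
    rw [e] at h3
    exact pp_disj h1 h3

/-- The elements of the free group of rank two. -/
def ff (i : ℕ) : F2 := of 0 ^ i * of 1 * (of 0 ^ i)⁻¹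

theorem ff_injective : Function.Injective (FreeGroup.lift ff) := by
  have h : rho2.comp (FreeGroup.lift ff) = FreeGroup.lift cc := by
    apply FreeGroup.ext_hom
    intro i
    show rho2 (FreeGroup.lift ff (of i)) = FreeGroup.lift cc (of i)
    rw [FreeGroup.lift_apply_of, FreeGroup.lift_apply_of, ff, cc, map_mul, map_mul, map_inv, map_pow, rho2_0, rho2_1]
    have : m0 1 ^ i = m0 (i : ℤ) := by
      have := zpow_of_add m0 m0_zero m0_add (i : ℤ)
      rwa [zpow_natCast] at this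
    rw [this]
  have h2 := cc_injective
  rw [← h, MonoidHom.coe_comp] at h2
  exact h2.of_comp

/-- The verbal subgroup is not trivial. -/
theorem verb_ne_bot (s : FreeGroup ℕ) (hs : s ≠ 1) : Verb {s} F2 ≠ ⊥ := by
  intro h
  have h1 : FreeGroup.lift ff s ∈ Verb {s} F2 := lift_mem_verb {s} rfl ff
  rw [h, Subgroup.mem_bot] at h1
  exact hs (ff_injective (by rw [h1, map_one]))

theorem verb_mono {α : Type*} {S T : Set (FreeGroup α)} (h : S ⊆ T) (G : Type*) [Group G] : Verb S G ≤ Verb T G := by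
  apply Subgroup.normalClosure_mono
  rintro g ⟨s, hs, f, rfl⟩
  exact ⟨s, h hs, f, rfl⟩

theorem exists_of_ne_bot {A : Subgroup F2} (hA : A ≠ ⊥) : ∃ a ∈ A, a ≠ 1 := by
  by_contra h
  push Not at h
  exact hA (eq_bot_iff.mpr fun a ha => h a ha)

/-- Nontrivial normal subgroups of the free group meet nontrivially. -/
theorem inf_ne_bot (A B : Subgroup F2) [A.Normal] [B.Normal] (hA : A ≠ ⊥) (hB : B ≠ ⊥) : A ⊓ B ≠ ⊥ := by
  obtain ⟨a, haA, ha1⟩ := exists_of_ne_bot hA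
  obtain ⟨b, hbB, hb1⟩ := exists_of_ne_bot hB
  obtain ⟨N1, hN1⟩ := pip_ne_one _ ha1
  obtain ⟨N2, hN2⟩ := pip_ne_one _ hb1
  obtain ⟨p, hp1, hp⟩ := Nat.exists_infinite_primes (N1 + N2 + 5)
  have := Fact.mk hp
  have := QQ_simple p (by omega)
  have hc := center_bot (Q := QQ p) (QQ_noncomm p (by omega))
  have hs := pip_surj p (by omega)
  intro h
  have h1 : ⁅A, B⁆ = ⊥ := by
    rw [eq_bot_iff, ← h]
    exact Subgroup.commutator_le_inf A B
  have h2 : ⁅A.map (pip p), B.map (pip p)⁆ = ⊥ := by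
    rw [← Subgroup.map_commutator, h1, Subgroup.map_bot]
  rw [map_eq_top hs A (fun hle => hN1 p hp (by omega) (hle haA)),
    map_eq_top hs B (fun hle => hN2 p hp (by omega) (hle hbB)),
    Subgroup.commutator_eq_bot_iff_le_centralizer, Subgroup.coe_top, Subgroup.centralizer_univ, hc] at h2
  exact top_ne_bot (eq_bot_iff.mpr h2)

theorem commutator_ne_bot : _root_.commutator F2 ≠ ⊥ := by
  intro h
  obtain ⟨p, hp1, hp⟩ := Nat.exists_infinite_primes 5
  have := Fact.mk hp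
  obtain ⟨a, b, hab⟩ := QQ_noncomm p hp1
  have hs := pip_surj p (by omega)
  obtain ⟨u, rfl⟩ := hs a
  obtain ⟨v, rfl⟩ := hs b
  have h1 : ⁅u, v⁆ ∈ _root_.commutator F2 := Subgroup.commutator_mem_commutator (Subgroup.mem_top u) (Subgroup.mem_top v)
  rw [h, Subgroup.mem_bot, commutatorElement_eq_one_iff_mul_comm] at h1
  apply hab
  rw [← map_mul, h1, map_mul]

/-- The descending sequence of normal subgroups, for an enumeration `e` of the words. -/
def WW (e : ℕ → FreeGroup ℕ) : ℕ → Subgroup F2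
  | 0 => _root_.commutator F2
  | n + 1 => WW e n ⊓ (if e n = 1 then ⊤ else Verb {e n} F2)

theorem WW_spec (e : ℕ → FreeGroup ℕ) (n : ℕ) : (WW e n).Normal ∧ WW e n ≠ ⊥ := by
  induction n with
  | zero => exact ⟨inferInstanceAs (_root_.commutator F2).Normal, commutator_ne_bot⟩
  | succ n ih =>
    obtain ⟨h1, h2⟩ := ih
    show (WW e n ⊓ (if e n = 1 then ⊤ else Verb {e n} F2)).Normal ∧ WW e n ⊓ (if e n = 1 then ⊤ else Verb {e n} F2) ≠ ⊥
    by_cases he : e n = 1
    · rw [if_pos he, inf_top_eq]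
      exact ⟨h1, h2⟩
    · rw [if_neg he]
      exact ⟨inferInstance, inf_ne_bot _ _ h2 (verb_ne_bot _ he)⟩

theorem WW_anti (e : ℕ → FreeGroup ℕ) : Antitone (WW e) :=
  antitone_nat_of_succ_le fun _ => inf_le_left

theorem WW_comm (e : ℕ → FreeGroup ℕ) (n : ℕ) : WW e n ≤ _root_.commutator F2 := WW_anti e (Nat.zero_le n)

theorem WW_verb (e : ℕ → FreeGroup ℕ) {n k : ℕ} (hk : k < n) (he : e k ≠ 1) : WW e n ≤ Verb {e k} F2 := by
  refine (WW_anti e (Nat.succ_le_of_lt hk)).trans ?_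
  show WW e k ⊓ (if e k = 1 then ⊤ else Verb {e k} F2) ≤ _
  rw [if_neg he]
  exact inf_le_right

theorem val_of_all {Q : Type*} [Group Q] {v : F2} (h : ∀ π : F2 →* Q, π v = 1) (a b : Q) : val (of 0 * v) a b = a := by
  rw [val_mul, val_of_0]
  have : val v a b = 1 := h _
  rw [this, mul_one]

/-- The triples `(n, p, v)`. -/
def PP (e : ℕ → FreeGroup ℕ) (x : ℕ × ℕ × F2) : Prop :=
  x.2.1.Prime ∧ x.2.2 ∈ WW e x.1 ∧ NN (QQ x.2.1) (of 0) < NN (QQ x.2.1) (of 0 * x.2.2)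

/-- The relation. -/
def RR (x y : ℕ × ℕ × F2) : Prop := x.1 < y.1 ∧ NN (QQ x.2.1) (of 0 * y.2.2) = NN (QQ x.2.1) (of 0)

theorem step (e : ℕ → FreeGroup ℕ) (s : Finset (ℕ × ℕ × F2)) (hs : ∀ x ∈ s, PP e x) :
    ∃ y, PP e y ∧ ∀ x ∈ s, RR x y := by
  classical
  let n := s.sup (fun x => x.1) + 1
  obtain ⟨hWn, hW1⟩ := WW_spec e n
  obtain ⟨g, hg, hg1⟩ := exists_of_ne_bot hW1
  -- the exponent
  let m := ∏ x ∈ s, Nat.card (QQ x.2.1)
  have hfin : ∀ x ∈ s, Nat.card (QQ x.2.1) ≠ 0 := by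
    intro x hx
    have := Fact.mk (hs x hx).1
    exact Nat.card_pos.ne'
  have hm : m ≠ 0 := Finset.prod_ne_zero_iff.mpr hfin
  let V : Subgroup F2 := WW e n ⊓ ⨅ x ∈ s, ⨅ π : F2 →* QQ x.2.1, π.ker
  have hVn : V.Normal := by
    have : (⨅ x ∈ s, ⨅ π : F2 →* QQ x.2.1, π.ker).Normal := by
      apply Subgroup.normal_iInf_normal
      intro x
      apply Subgroup.normal_iInf_normal
      intro _
      apply Subgroup.normal_iInf_normal
      intro π
      infer_instance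
    infer_instance
  let u : F2 := g ^ m
  have hu1 : u ≠ 1 := by
    intro hcon
    exact hg1 ((pow_eq_one_iff_left hm).mp hcon)
  have huV : u ∈ V := by
    refine Subgroup.mem_inf.mpr ⟨pow_mem hg m, ?_⟩
    rw [Subgroup.mem_iInf]
    intro x
    rw [Subgroup.mem_iInf]
    intro hx
    rw [Subgroup.mem_iInf]
    intro π
    rw [MonoidHom.mem_ker]
    show π (g ^ m) = 1
    have hdvd : Nat.card (QQ x.2.1) ∣ m := by
      have := Finset.dvd_prod_of_mem (fun y : ℕ × ℕ × F2 => Nat.card (QQ y.2.1)) hx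
      exact this
    obtain ⟨k, hk⟩ := hdvd
    rw [map_pow, hk, pow_mul, pow_card_eq_one', one_pow]
  obtain ⟨B, hB⟩ := pip_ne_one u hu1
  obtain ⟨p, hp1, hp⟩ := Nat.exists_infinite_primes (B + 5)
  have := Fact.mk hp
  have hsim := QQ_simple p (by omega)
  have hnc := QQ_noncomm p (by omega)
  have hcen := center_bot (Q := QQ p) hnc
  have hsur := pip_surj p (by omega)
  have hV0 : ¬ V ≤ (pip p).ker := fun hle => hB p hp (by omega) (hle huV)
  obtain ⟨v, hvV, hv0, hvk⟩ := exists_kill hnc hsur V hV0 ((pip p (of 0))⁻¹)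
  refine ⟨(n, p, v), ⟨hp, (Subgroup.mem_inf.mp hvV).1, ?_⟩, ?_⟩
  · show NN (QQ p) (of 0) < NN (QQ p) (of 0 * v)
    apply NN_lt (pip p) hsur hcen
    · intro hx
      rw [hcen] at hx
      have hx1 : pip p (of 0) = 1 := hx
      obtain ⟨a, b, hab⟩ := hnc
      apply hab
      -- the group would be generated by one element
      have hpow : ∀ q : QQ p, q ∈ Subgroup.zpowers (pip p (of 1)) := by
        intro q
        obtain ⟨w, rfl⟩ := hsur q
        have hle : (⊤ : Subgroup F2) ≤ (Subgroup.zpowers (pip p (of 1))).comap (pip p) := by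
          rw [← FreeGroup.closure_range_of, Subgroup.closure_le]
          rintro _ ⟨i, rfl⟩
          show pip p (of i) ∈ Subgroup.zpowers (pip p (of 1))
          fin_cases i
          · show pip p (of 0) ∈ _
            rw [hx1]
            exact one_mem _
          · exact Subgroup.mem_zpowers _
        exact hle (Subgroup.mem_top w)
      obtain ⟨i, rfl⟩ := Subgroup.mem_zpowers_iff.mp (hpow a)
      obtain ⟨j, rfl⟩ := Subgroup.mem_zpowers_iff.mp (hpow b)
      exact zpow_mul_comm _ i j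
    · rw [map_mul, hv0, mul_inv_cancel]
    · intro π hπ
      rw [map_mul, hvk π hπ, mul_one]
  · intro x hx
    refine ⟨?_, ?_⟩
    · show x.1 < s.sup (fun x => x.1) + 1
      have : x.1 ≤ s.sup (fun x => x.1) := Finset.le_sup (f := fun y : ℕ × ℕ × F2 => y.1) hx
      omega
    show NN (QQ x.2.1) (of 0 * v) = NN (QQ x.2.1) (of 0)
    apply NN_eq_base
    apply val_of_all
    intro π
    have h1 := (Subgroup.mem_inf.mp hvV).2
    rw [Subgroup.mem_iInf] at h1
    have h2 := h1 x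
    rw [Subgroup.mem_iInf] at h2
    have h3 := h2 hx
    rw [Subgroup.mem_iInf] at h3
    exact h3 π

/-- The sequence. -/
theorem exists_seq (e : ℕ → FreeGroup ℕ) :
    ∃ f : ℕ → ℕ × ℕ × F2, (∀ n, PP e (f n)) ∧ (∀ m n, m < n → RR (f m) (f n)) ∧ ∀ n, n ≤ (f n).1 := by
  obtain ⟨f, hf, hr⟩ := exists_seq_of_forall_finset_exists (PP e) RR (step e)
  refine ⟨f, hf, hr, ?_⟩
  intro n
  induction n with
  | zero => exact Nat.zero_le _
  | succ n ih => exact Nat.succ_le_of_lt (lt_of_le_of_lt ih (hr n (n + 1) (Nat.lt_succ_self n)).1)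

end Pool.Agent.Work.MP_97dc52_al
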