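import Pool.Agent.Work.MP_97dc52_al.Quot

/-!
Homomorphisms of a free group to a finite simple group, and the number of homomorphisms of the mapping tori.
-/

set_option autoImplicit false

namespace Pool.Agent.Work.MP_97dc52_al

open FreeGroup (of)
open scoped commutatorElement

section

variable {Q : Type*} [Group Q] [Finite Q] [IsSimpleGroup Q]

instance finite_homs : Finite (F2 →* Q) :=
  Finite.of_injective (fun f : F2 →* Q => fun i : Fin 2 => f (of i)) (by
    intro f g h
    apply FreeGroup.ext_hom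
    intro i
    exact congrFun h i)

theorem center_bot (hQ : ∃ a b : Q, a * b ≠ b * a) : Subgroup.center Q = ⊥ := by
  rcases (inferInstance : (Subgroup.center Q).Normal).eq_bot_or_eq_top with h | h
  · exact h
  · obtain ⟨a, b, hab⟩ := hQ
    exfalso
    apply hab
    have : a ∈ Subgroup.center Q := by rw [h]; exact Subgroup.mem_top a
    exact ((Subgroup.mem_center_iff.mp this) b).symm

/-- If the kernel of `π` is contained in the kernel of a surjection `π₀`, then `π` is `θ ∘ π₀`. -/
theorem equiv_of_ker_le {π π₀ : F2 →* Q} (h0 : Function.Surjective π₀) (h : π.ker ≤ π₀.ker) :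
    ∃ θ : MulAut Q, ∀ v, π v = θ (π₀ v) := by
  let a : F2 ⧸ π.ker →* Q := QuotientGroup.lift π.ker π₀ h
  let b : F2 ⧸ π.ker →* Q := QuotientGroup.kerLift π
  have hb : Function.Injective b := QuotientGroup.kerLift_injective π
  have ha : Function.Surjective a := by
    intro q
    obtain ⟨v, rfl⟩ := h0 q
    exact ⟨QuotientGroup.mk v, rfl⟩
  haveI : Finite (F2 ⧸ π.ker) := Finite.of_injective b hb
  have hab : Function.Bijective a := ha.bijective_of_nat_card_le (Nat.card_le_card_of_injective b hb)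
  have hbb : Function.Bijective b := hb.bijective_of_nat_card_le (Nat.card_le_card_of_surjective a ha)
  refine ⟨(MulEquiv.ofBijective a hab).symm.trans (MulEquiv.ofBijective b hbb), fun v => ?_⟩
  rw [MulEquiv.trans_apply]
  have e1 : (MulEquiv.ofBijective a hab).symm (π₀ v) = QuotientGroup.mk v := by
    rw [MulEquiv.symm_apply_eq]
    rfl
  rw [e1]
  rfl

theorem map_eq_top {π₀ : F2 →* Q} (h0 : Function.Surjective π₀) (K : Subgroup F2) [K.Normal] (hK : ¬ K ≤ π₀.ker) :
    K.map π₀ = ⊤ := by
  have hn : (K.map π₀).Normal := Subgroup.Normal.map inferInstance π₀ h0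
  rcases hn.eq_bot_or_eq_top with h | h
  · exact absurd ((Subgroup.map_eq_bot_iff K).mp h) hK
  · exact h

theorem exists_kill (hQ : ∃ a b : Q, a * b ≠ b * a) {π₀ : F2 →* Q} (h0 : Function.Surjective π₀)
    (V : Subgroup F2) [V.Normal] (hV : ¬ V ≤ π₀.ker) (q : Q) :
    ∃ v ∈ V, π₀ v = q ∧ ∀ π : F2 →* Q, (¬ ∃ θ : MulAut Q, ∀ v, π v = θ (π₀ v)) → π v = 1 := by
  classical
  haveI := Fintype.ofFinite (F2 →* Q)
  have key : ∀ s : Finset (F2 →* Q), (∀ π ∈ s, ¬ ∃ θ : MulAut Q, ∀ v, π v = θ (π₀ v)) →
      ∃ K : Subgroup F2, K.Normal ∧ K ≤ V ∧ (¬ K ≤ π₀.ker) ∧ ∀ π ∈ s, K ≤ π.ker := by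
    intro s
    induction s using Finset.induction_on with
    | empty => intro _; exact ⟨V, inferInstance, le_refl _, hV, by simp⟩
    | insert π s hπ ih =>
      intro hs
      obtain ⟨K, hKn, hKV, hK0, hKs⟩ := ih (fun ρ hρ => hs ρ (Finset.mem_insert_of_mem hρ))
      refine ⟨⁅K, π.ker⁆, inferInstance, (Subgroup.commutator_le_left K π.ker).trans hKV, ?_, ?_⟩
      · intro hle
        have hbot : ⁅K, π.ker⁆.map π₀ = ⊥ := (Subgroup.map_eq_bot_iff _).mpr hle
        rw [Subgroup.map_commutator, map_eq_top h0 K hK0, Subgroup.commutator_comm,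
          Subgroup.commutator_eq_bot_iff_le_centralizer] at hbot
        have hker : π.ker ≤ π₀.ker := by
          intro v hv
          have h1 := hbot (Subgroup.mem_map_of_mem π₀ hv)
          rw [Subgroup.coe_top, Subgroup.centralizer_univ, center_bot hQ] at h1
          exact h1
        exact hs π (Finset.mem_insert_self π s) (equiv_of_ker_le h0 hker)
      · intro ρ hρ
        rcases Finset.mem_insert.mp hρ with rfl | hρ'
        · exact Subgroup.commutator_le_right K _
        · exact (Subgroup.commutator_le_left K _).trans (hKs ρ hρ')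
  obtain ⟨K, hKn, hKV, hK0, hKs⟩ := key (Finset.univ.filter fun π => ¬ ∃ θ : MulAut Q, ∀ v, π v = θ (π₀ v))
    (by intro π hπ; exact (Finset.mem_filter.mp hπ).2)
  have hq : q ∈ K.map π₀ := by rw [map_eq_top h0 K hK0]; exact Subgroup.mem_top q
  obtain ⟨v, hv, rfl⟩ := hq
  exact ⟨v, hKV hv, rfl, fun π hπ => hKs π (Finset.mem_filter.mpr ⟨Finset.mem_univ _, hπ⟩) hv⟩

end

/-! ### Counting -/

section

variable {Q : Type*} [Group Q]

/-- The number of homomorphisms. -/
noncomputable def NN (Q : Type*) [Group Q] (w : F2) : ℕ := Nat.card (MT (phi w) →* Q)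

theorem NN_eq (w : F2) : NN Q w = Nat.card {p : Q × Q × Q × Q // Rel w p.1 p.2.1 p.2.2.1 p.2.2.2} :=
  Nat.card_congr (homEquiv w Q)

theorem NN_iso {w w' : F2} (e : MT (phi w) ≃* MT (phi w')) : NN Q w = NN Q w' := by
  apply Nat.card_congr
  exact {
    toFun := fun f => f.comp e.symm.toMonoidHom
    invFun := fun f => f.comp e.toMonoidHom
    left_inv := fun f => by ext x <;> simp
    right_inv := fun f => by ext x <;> simp }

theorem NN_eq_base {w : F2} (h : ∀ a b : Q, val w a b = a) : NN Q w = NN Q (of 0) := by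
  rw [NN_eq, NN_eq]
  apply Nat.card_congr
  apply Equiv.subtypeEquivRight
  rintro ⟨a, b, z, t⟩
  simp only [Rel, h, val_of_0]

theorem NN_lt [Finite Q] {w : F2} (π₀ : F2 →* Q) (h0 : Function.Surjective π₀) (hc : Subgroup.center Q = ⊥)
    (hx : π₀ (of 0) ∉ Subgroup.center Q) (hw0 : π₀ w = 1)
    (hw : ∀ π : F2 →* Q, (¬ ∃ θ : MulAut Q, ∀ v, π v = θ (π₀ v)) → π w = π (of 0)) : NN Q (of 0) < NN Q w := by
  rw [NN_eq, NN_eq]
  have hsub : {p : Q × Q × Q × Q | Rel (of 0) p.1 p.2.1 p.2.2.1 p.2.2.2} ⊂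
      {p : Q × Q × Q × Q | Rel w p.1 p.2.1 p.2.2.1 p.2.2.2} := by
    rw [Set.ssubset_iff_subset_ne]
    refine ⟨?_, ?_⟩
    · rintro ⟨a, b, z, t⟩ h
      have h' : Rel (of 0) a b z t := h
      show Rel w a b z t
      by_cases hπ : ∃ θ : MulAut Q, ∀ v, val v a b = θ (π₀ v)
      · obtain ⟨θ, hθ⟩ := hπ
        have ht : t = 1 := by
          have hmem : t ∈ Subgroup.center Q := by
            rw [Subgroup.mem_center_iff]
            intro g
            obtain ⟨v, hv⟩ := h0 (θ.symm g)
            have h1 : val v a b = g := by rw [hθ, hv, MulEquiv.apply_symm_apply]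
            rw [← h1]
            exact (comm_val h'.1 h'.2.1 v).symm
          rw [hc] at hmem
          exact hmem
        refine ⟨h'.1, h'.2.1, ?_⟩
        have h2 : val w a b = 1 := by rw [hθ, hw0, map_one]
        rw [h2, ht]
      · have h2 : val w a b = a := by
          have := hw (FreeGroup.lift ![a, b]) hπ
          have h3 : val w a b = val (of 0) a b := this
          rw [h3, val_of_0]
        refine ⟨h'.1, h'.2.1, ?_⟩
        rw [h2]
        have := h'.2.2
        rwa [val_of_0] at this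
    · intro heq
      rw [Subgroup.mem_center_iff] at hx
      push Not at hx
      obtain ⟨z, hz⟩ := hx
      have hval : ∀ v, val v (π₀ (of 0)) (π₀ (of 1)) = π₀ v := by
        intro v
        have e : FreeGroup.lift ![π₀ (of 0), π₀ (of 1)] = π₀ := by
          apply FreeGroup.ext_hom
          intro i
          fin_cases i <;> simp
        exact DFunLike.congr_fun e v
      have h1 : ((π₀ (of 0), π₀ (of 1), z, 1) : Q × Q × Q × Q) ∈
          {p : Q × Q × Q × Q | Rel w p.1 p.2.1 p.2.2.1 p.2.2.2} := by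
        show Rel w (π₀ (of 0)) (π₀ (of 1)) z 1
        refine ⟨by simp, by simp, ?_⟩
        rw [hval, hw0]
      rw [← heq] at h1
      have h2 : Rel (of 0) (π₀ (of 0)) (π₀ (of 1)) z 1 := h1
      have h3 := h2.2.2
      rw [val_of_0] at h3
      apply hz
      have h4 : z * (π₀ (of 0)) = (1 : Q) * z * (1 : Q)⁻¹ * (π₀ (of 0)) := by simp
      rw [h4, h3]
      group
  exact Set.ncard_lt_ncard hsub (Set.toFinite _)

end

end Pool.Agent.Work.MP_97dc52_al
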